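import Mathlib
import Pool.Agent.TH456.TM.Inst

set_option autoImplicit false

/-!
# Fields of numbers with very good rational approximations at given scales
-/

namespace Pool.Agent.Q163.LE

open Filter Topology

/-- `x` has rational approximations of height `exp (A T n)` with errors `exp (- E T n)`, for
one `A` and all `E` -/
def Ap (T : ℕ → ℝ) (x : ℝ) : Prop :=
  ∃ A : ℝ, 0 ≤ A ∧ ∀ E : ℝ, ∀ᶠ n in atTop, ∃ p q : ℤ, q ≠ 0 ∧ |(p : ℝ)| ≤ Real.exp (A * T n) ∧
    |(q : ℝ)| ≤ Real.exp (A * T n) ∧ |x - p / q| ≤ Real.exp (-(E * T n))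

variable {T : ℕ → ℝ} {x y : ℝ}

lemma ev_ge (hT : Tendsto T atTop atTop) (C : ℝ) : ∀ᶠ n in atTop, C ≤ Real.exp (T n) := by
  filter_upwards [hT.eventually_ge_atTop C] with n hn
  exact hn.trans (by linarith [Real.add_one_le_exp (T n)])

lemma Ap.mono {A B : ℝ} (hAB : A ≤ B) (hT : Tendsto T atTop atTop) {E : ℝ}
    (h : ∀ᶠ n in atTop, ∃ p q : ℤ, q ≠ 0 ∧ |(p : ℝ)| ≤ Real.exp (A * T n) ∧
      |(q : ℝ)| ≤ Real.exp (A * T n) ∧ |x - p / q| ≤ Real.exp (-(E * T n))) :
    ∀ᶠ n in atTop, ∃ p q : ℤ, q ≠ 0 ∧ |(p : ℝ)| ≤ Real.exp (B * T n) ∧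
      |(q : ℝ)| ≤ Real.exp (B * T n) ∧ |x - p / q| ≤ Real.exp (-(E * T n)) := by
  filter_upwards [h, hT.eventually_ge_atTop 0] with n hn hT0
  obtain ⟨p, q, h1, h2, h3, h4⟩ := hn
  have h5 : Real.exp (A * T n) ≤ Real.exp (B * T n) :=
    Real.exp_le_exp.2 (mul_le_mul_of_nonneg_right hAB hT0)
  exact ⟨p, q, h1, h2.trans h5, h3.trans h5, h4⟩

lemma Ap.rat (hT : Tendsto T atTop atTop) (p q : ℤ) (hq : q ≠ 0) : Ap T ((p : ℝ) / q) := by
  refine ⟨1, zero_le_one, fun E => ?_⟩
  filter_upwards [ev_ge hT |(p : ℝ)|, ev_ge hT |(q : ℝ)|] with n h1 h2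
  refine ⟨p, q, hq, by rwa [one_mul], by rwa [one_mul], ?_⟩
  rw [sub_self, abs_zero]
  positivity

lemma Ap.neg (hx : Ap T x) : Ap T (-x) := by
  obtain ⟨A, hA, h⟩ := hx
  refine ⟨A, hA, fun E => (h E).mono ?_⟩
  rintro n ⟨p, q, h1, h2, h3, h4⟩
  refine ⟨-p, q, h1, by rwa [Int.cast_neg, abs_neg], h3, ?_⟩
  have e : -x - ((-p : ℤ) : ℝ) / q = -(x - p / q) := by
    push_cast
    ring
  rwa [e, abs_neg]

lemma Ap.add (hT : Tendsto T atTop atTop) (hx : Ap T x) (hy : Ap T y) : Ap T (x + y) := by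
  obtain ⟨A, hA, h1⟩ := hx
  obtain ⟨B, hB, h2⟩ := hy
  refine ⟨A + B + 1, by positivity, fun E => ?_⟩
  filter_upwards [h1 (E + 1), h2 (E + 1), ev_ge hT 2, hT.eventually_ge_atTop 0] with n hn1 hn2 h3 h0
  obtain ⟨p, q, hq, a1, a2, a3⟩ := hn1
  obtain ⟨p', q', hq', b1, b2, b3⟩ := hn2
  have eAB : Real.exp ((A + B + 1) * T n) =
      Real.exp (T n) * (Real.exp (A * T n) * Real.exp (B * T n)) := by
    rw [← Real.exp_add, ← Real.exp_add]; ring_nf
  have hpos : 0 < Real.exp (A * T n) * Real.exp (B * T n) := by positivity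
  have c1 : |(p : ℝ)| * |(q' : ℝ)| ≤ Real.exp (A * T n) * Real.exp (B * T n) :=
    mul_le_mul a1 b2 (abs_nonneg _) (Real.exp_nonneg _)
  have c2 : |(q : ℝ)| * |(p' : ℝ)| ≤ Real.exp (A * T n) * Real.exp (B * T n) :=
    mul_le_mul a2 b1 (abs_nonneg _) (Real.exp_nonneg _)
  have c3 : |(q : ℝ)| * |(q' : ℝ)| ≤ Real.exp (A * T n) * Real.exp (B * T n) :=
    mul_le_mul a2 b2 (abs_nonneg _) (Real.exp_nonneg _)
  refine ⟨p * q' + p' * q, q * q', mul_ne_zero hq hq', ?_, ?_, ?_⟩
  · rw [eAB]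
    push_cast
    calc |(p : ℝ) * q' + p' * q| ≤ |(p : ℝ)| * |(q' : ℝ)| + |(q : ℝ)| * |(p' : ℝ)| := by
          rw [← abs_mul, ← abs_mul, mul_comm (q : ℝ) p']
          exact abs_add_le _ _
      _ ≤ 2 * (Real.exp (A * T n) * Real.exp (B * T n)) := by linarith
      _ ≤ _ := mul_le_mul_of_nonneg_right h3 hpos.le
  · rw [eAB]
    push_cast
    rw [abs_mul]
    calc |(q : ℝ)| * |(q' : ℝ)| ≤ Real.exp (A * T n) * Real.exp (B * T n) := c3
      _ ≤ _ := le_mul_of_one_le_left hpos.le (by linarith)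
  · have hq0 : (q : ℝ) ≠ 0 := by exact_mod_cast hq
    have hq0' : (q' : ℝ) ≠ 0 := by exact_mod_cast hq'
    have e : x + y - ((p * q' + p' * q : ℤ) : ℝ) / ((q * q' : ℤ) : ℝ) =
        (x - p / q) + (y - p' / q') := by
      push_cast
      field_simp
      ring
    rw [e]
    calc |(x - p / q) + (y - p' / q')| ≤ |x - p / q| + |y - p' / q'| := abs_add_le _ _
      _ ≤ Real.exp (-((E + 1) * T n)) + Real.exp (-((E + 1) * T n)) := add_le_add a3 b3
      _ = 2 * Real.exp (-((E + 1) * T n)) := by ring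
      _ ≤ Real.exp (T n) * Real.exp (-((E + 1) * T n)) :=
          mul_le_mul_of_nonneg_right h3 (Real.exp_nonneg _)
      _ = Real.exp (-(E * T n)) := by rw [← Real.exp_add]; ring_nf

lemma Ap.mul (hT : Tendsto T atTop atTop) (hx : Ap T x) (hy : Ap T y) : Ap T (x * y) := by
  obtain ⟨A, hA, h1⟩ := hx
  obtain ⟨B, hB, h2⟩ := hy
  refine ⟨A + B, by positivity, fun E => ?_⟩
  filter_upwards [h1 (max E 0 + 1), h2 (max E 0 + 1), ev_ge hT (|x| + |y| + 1),
    hT.eventually_ge_atTop 0] with n hn1 hn2 h3 h0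
  obtain ⟨p, q, hq, a1, a2, a3⟩ := hn1
  obtain ⟨p', q', hq', b1, b2, b3⟩ := hn2
  have eAB : Real.exp ((A + B) * T n) = Real.exp (A * T n) * Real.exp (B * T n) := by
    rw [← Real.exp_add]; ring_nf
  refine ⟨p * p', q * q', mul_ne_zero hq hq', ?_, ?_, ?_⟩
  · rw [eAB]
    push_cast
    rw [abs_mul]
    exact mul_le_mul a1 b1 (abs_nonneg _) (Real.exp_nonneg _)
  · rw [eAB]
    push_cast
    rw [abs_mul]
    exact mul_le_mul a2 b2 (abs_nonneg _) (Real.exp_nonneg _)
  · have hq0 : (q : ℝ) ≠ 0 := by exact_mod_cast hq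
    have hq0' : (q' : ℝ) ≠ 0 := by exact_mod_cast hq'
    have hE : 0 ≤ (max E 0 + 1) * T n := by positivity
    have e : x * y - ((p * p' : ℤ) : ℝ) / ((q * q' : ℤ) : ℝ) =
        x * (y - p' / q') + (y - (y - p' / q')) * (x - p / q) := by
      push_cast
      field_simp
      ring
    have b4 : |y - (y - p' / q')| ≤ |y| + 1 := by
      refine (abs_sub _ _).trans (add_le_add le_rfl (b3.trans ?_))
      rw [Real.exp_le_one_iff]
      linarith
    rw [e]
    calc |x * (y - p' / q') + (y - (y - p' / q')) * (x - p / q)|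
        ≤ |x| * |y - p' / q'| + |y - (y - p' / q')| * |x - p / q| := by
          rw [← abs_mul, ← abs_mul]
          exact abs_add_le _ _
      _ ≤ |x| * Real.exp (-((max E 0 + 1) * T n)) +
          (|y| + 1) * Real.exp (-((max E 0 + 1) * T n)) := by
          refine add_le_add (mul_le_mul_of_nonneg_left b3 (abs_nonneg _))
            (mul_le_mul b4 a3 (abs_nonneg _) (by positivity))
      _ = (|x| + |y| + 1) * Real.exp (-((max E 0 + 1) * T n)) := by ring
      _ ≤ Real.exp (T n) * Real.exp (-((max E 0 + 1) * T n)) :=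
          mul_le_mul_of_nonneg_right h3 (Real.exp_nonneg _)
      _ ≤ Real.exp (-(E * T n)) := by
          rw [← Real.exp_add]
          refine Real.exp_le_exp.2 ?_
          nlinarith [le_max_left E 0]

lemma Ap.inv (hT : Tendsto T atTop atTop) (hx : Ap T x) : Ap T x⁻¹ := by
  by_cases hx0 : x = 0
  · subst hx0
    rwa [inv_zero]
  obtain ⟨A, hA, h1⟩ := hx
  have hxp : 0 < |x| := abs_pos.2 hx0
  refine ⟨A, hA, fun E => ?_⟩
  filter_upwards [h1 (max E 0 + 1), ev_ge hT (2 / (|x| * |x|)), ev_ge hT (2 / |x|),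
    hT.eventually_ge_atTop 0] with n hn1 h3 h4 h0
  obtain ⟨p, q, hq, a1, a2, a3⟩ := hn1
  have hq0 : (q : ℝ) ≠ 0 := by exact_mod_cast hq
  have hsmall : |x - p / q| ≤ |x| / 2 := by
    refine a3.trans ?_
    have h5 : Real.exp (-((max E 0 + 1) * T n)) ≤ Real.exp (-(T n)) := by
      refine Real.exp_le_exp.2 ?_
      nlinarith [le_max_right E 0]
    refine h5.trans ?_
    rw [Real.exp_neg, inv_le_comm₀ (Real.exp_pos _) (by positivity)]
    refine le_trans (le_of_eq ?_) h4
    field_simp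
  have hpq : |x| / 2 ≤ |(p : ℝ) / q| := by
    have h5 : |x| ≤ |x - p / q| + |(p : ℝ) / q| := by
      have h6 := abs_add_le (x - p / q) ((p : ℝ) / q)
      rwa [sub_add_cancel] at h6
    linarith
  have hpq0 : (p : ℝ) / q ≠ 0 := by
    intro h
    rw [h, abs_zero] at hpq
    linarith
  have hp0 : (p : ℝ) ≠ 0 := fun h => hpq0 (by rw [h, zero_div])
  have hp : p ≠ 0 := by exact_mod_cast hp0
  refine ⟨q, p, hp, a2, a1, ?_⟩
  have e : x⁻¹ - (q : ℝ) / p = -(x - p / q) / (x * (p / q)) := by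
    field_simp
    ring
  rw [e, abs_div, abs_neg, abs_mul]
  calc |x - p / q| / (|x| * |(p : ℝ) / q|) ≤ |x - p / q| / (|x| * (|x| / 2)) := by
        refine div_le_div_of_nonneg_left (abs_nonneg _) (by positivity) ?_
        exact mul_le_mul_of_nonneg_left hpq hxp.le
    _ = (2 / (|x| * |x|)) * |x - p / q| := by
        field_simp
    _ ≤ Real.exp (T n) * Real.exp (-((max E 0 + 1) * T n)) :=
        mul_le_mul h3 a3 (abs_nonneg _) (Real.exp_nonneg _)
    _ ≤ Real.exp (-(E * T n)) := by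
        rw [← Real.exp_add]
        refine Real.exp_le_exp.2 ?_
        nlinarith [le_max_left E 0]

/-- the field of the numbers with very good approximations at the scales `T n` -/
def ApField (T : ℕ → ℝ) (hT : Tendsto T atTop atTop) : Subfield ℝ where
  carrier := {x | Ap T x}
  mul_mem' := fun hx hy => Ap.mul hT hx hy
  one_mem' := by
    have h := Ap.rat hT 1 1 one_ne_zero
    simpa using h
  add_mem' := fun hx hy => Ap.add hT hx hy
  zero_mem' := by
    have h := Ap.rat hT 0 1 one_ne_zero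
    simpa using h
  neg_mem' := fun hx => Ap.neg hx
  inv_mem' := fun _ hx => Ap.inv hT hx

open Pool.Agent.TH456.TM in
/-- a number with a transcendence measure of finite type in every degree is not a root of a
polynomial over such a field -/
theorem not_root (hT : Tendsto T atTop atTop) (θ : ℝ) (hθ : MeasT (θ : ℂ)) (d : ℕ) (a : ℕ → ℝ)
    (ha : ∀ j, j ≤ d → Ap T (a j)) (had : a d ≠ 0)
    (h0 : ∑ j ∈ Finset.range (d + 1), a j * θ ^ j = 0) : False := by
  classical
  choose! A hA hA2 using ha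
  set B : ℝ := ∑ j ∈ Finset.range (d + 1), A j with hB
  have hB0 : 0 ≤ B := Finset.sum_nonneg fun j hj => hA j (by rw [Finset.mem_range] at hj; omega)
  have hAB : ∀ j, j ≤ d → A j ≤ B := fun j hj =>
    Finset.single_le_sum (f := A) (fun i hi => hA i (by rw [Finset.mem_range] at hi; omega))
      (Finset.mem_range.2 (by omega))
  obtain ⟨κ, c, hκ, hc, hmeas⟩ := hθ d
  set D : ℝ := ((d : ℝ) + 1) * B with hD
  have hD0 : 0 ≤ D := by positivity
  set E : ℝ := κ * D + D + 1 with hE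
  set M : ℝ := ∑ j ∈ Finset.range (d + 1), |θ| ^ j with hM
  have hM0 : 0 < M := by
    rw [hM, Finset.sum_range_succ']
    have : 0 ≤ ∑ k ∈ Finset.range d, |θ| ^ (k + 1) := by positivity
    simp only [pow_zero]
    linarith
  have hev : ∀ᶠ n in atTop, ∀ j ∈ Finset.range (d + 1), ∃ p q : ℤ, q ≠ 0 ∧
      |(p : ℝ)| ≤ Real.exp (B * T n) ∧ |(q : ℝ)| ≤ Real.exp (B * T n) ∧
      |a j - p / q| ≤ Real.exp (-(E * T n)) := by
    rw [Filter.eventually_all_finset]
    intro j hj
    rw [Finset.mem_range] at hj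
    exact Ap.mono (hAB j (by omega)) hT (hA2 j (by omega) E)
  have hadp : 0 < |a d| := abs_pos.2 had
  obtain ⟨n, h1, h2, h3, h4⟩ := (hev.and ((ev_ge hT (2 / |a d|)).and
    ((ev_ge hT (2 * M / c)).and (hT.eventually_ge_atTop 0)))).exists
  choose! p q hq hp1 hq1 herr using h1
  -- the polynomial
  let Qe : ℕ → ℤ := fun j => ∏ i ∈ (Finset.range (d + 1)).erase j, q i
  let R : Polynomial ℤ := ∑ j ∈ Finset.range (d + 1),
    Polynomial.C (p j * Qe j) * Polynomial.X ^ j
  have hcoef : ∀ i, R.coeff i = if i ∈ Finset.range (d + 1) then p i * Qe i else 0 := by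
    intro i
    simp only [R, Polynomial.finsetSum_coeff, Polynomial.coeff_C_mul, Polynomial.coeff_X_pow,
      mul_ite, mul_one, mul_zero]
    rw [Finset.sum_ite_eq]
  have hQe : ∀ j ∈ Finset.range (d + 1), Qe j ≠ 0 := fun j _ =>
    Finset.prod_ne_zero_iff.2 fun i hi => hq i (Finset.mem_of_mem_erase hi)
  have hpd : p d ≠ 0 := by
    intro h
    have h5 := herr d (Finset.mem_range.2 (by omega))
    rw [h, Int.cast_zero, zero_div, sub_zero] at h5
    have h6 : Real.exp (-(E * T n)) ≤ Real.exp (-(T n)) := by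
      refine Real.exp_le_exp.2 ?_
      have : 0 ≤ (κ * D + D) * T n := by positivity
      have e : E * T n = (κ * D + D) * T n + T n := by rw [hE]; ring
      linarith
    have h7 : Real.exp (-(T n)) ≤ |a d| / 2 := by
      rw [Real.exp_neg, inv_le_comm₀ (Real.exp_pos _) (by positivity)]
      refine le_trans (le_of_eq ?_) h2
      field_simp
    linarith
  have hR0 : R ≠ 0 := by
    intro h
    have h5 := hcoef d
    rw [h, Polynomial.coeff_zero, if_pos (Finset.mem_range.2 (by omega))] at h5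
    exact mul_ne_zero hpd (hQe d (Finset.mem_range.2 (by omega))) h5.symm
  have hRd : R.natDegree ≤ d := by
    rw [Polynomial.natDegree_le_iff_coeff_eq_zero]
    intro i hi
    rw [hcoef, if_neg]
    rw [Finset.mem_range]
    omega
  have hprod : ∀ s : Finset ℕ, s ⊆ Finset.range (d + 1) →
      |((∏ i ∈ s, q i : ℤ) : ℝ)| ≤ Real.exp ((s.card : ℝ) * (B * T n)) := by
    intro s hs
    push_cast
    rw [Finset.abs_prod, Real.exp_nat_mul]
    refine (Finset.prod_le_prod (fun _ _ => abs_nonneg _) fun i hi => hq1 i (hs hi)).trans ?_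
    rw [Finset.prod_const]
  have hBT : 0 ≤ B * T n := mul_nonneg hB0 h4
  have hheight : ∀ j, |(R.coeff j : ℝ)| ≤ Real.exp (D * T n) := by
    intro j
    rw [hcoef]
    split_ifs with hj
    · push_cast
      rw [abs_mul]
      have h5 := hprod _ (Finset.erase_subset j (Finset.range (d + 1)))
      rw [Finset.card_erase_of_mem hj, Finset.card_range, Nat.add_sub_cancel] at h5
      calc |(p j : ℝ)| * |(Qe j : ℝ)| ≤ Real.exp (B * T n) * Real.exp ((d : ℝ) * (B * T n)) :=
            mul_le_mul (hp1 j hj) h5 (abs_nonneg _) (Real.exp_nonneg _)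
        _ = Real.exp (D * T n) := by
            rw [← Real.exp_add, hD]
            ring_nf
    · rw [Int.cast_zero, abs_zero]
      positivity
  have hH : 1 ≤ Real.exp (D * T n) := Real.one_le_exp (by positivity)
  have h5 := hmeas R hR0 hRd (Real.exp (D * T n)) hH hheight
  -- the value
  have hval : Polynomial.aeval (θ : ℂ) R =
      (((∑ j ∈ Finset.range (d + 1), (p j * Qe j : ℝ) * θ ^ j : ℝ)) : ℂ) := by
    simp only [R, map_sum, map_mul, map_pow, Polynomial.aeval_X, Polynomial.aeval_C]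
    push_cast
    refine Finset.sum_congr rfl fun j _ => ?_
    simp
  have hQall : ∀ j ∈ Finset.range (d + 1), (p j : ℝ) * (Qe j : ℝ) =
      ((∏ i ∈ Finset.range (d + 1), q i : ℤ) : ℝ) * ((p j : ℝ) / q j) := by
    intro j hj
    have h6 : (∏ i ∈ Finset.range (d + 1), q i : ℤ) = q j * Qe j :=
      (Finset.mul_prod_erase _ _ hj).symm
    have hq0 : (q j : ℝ) ≠ 0 := by exact_mod_cast hq j hj
    rw [h6]
    push_cast
    field_simp
  have hsum : (∑ j ∈ Finset.range (d + 1), (p j * Qe j : ℝ) * θ ^ j : ℝ) =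
      - ((∏ i ∈ Finset.range (d + 1), q i : ℤ) : ℝ) *
        ∑ j ∈ Finset.range (d + 1), (a j - (p j : ℝ) / q j) * θ ^ j := by
    have h6 : ∑ j ∈ Finset.range (d + 1), (a j - (p j : ℝ) / q j) * θ ^ j =
        - ∑ j ∈ Finset.range (d + 1), ((p j : ℝ) / q j) * θ ^ j := by
      simp only [sub_mul, Finset.sum_sub_distrib]
      rw [h0, zero_sub]
    rw [h6, neg_mul_neg, Finset.mul_sum]
    refine Finset.sum_congr rfl fun j hj => ?_
    rw [hQall j hj]
    ring
  have hsmall : |(∑ j ∈ Finset.range (d + 1), (p j * Qe j : ℝ) * θ ^ j : ℝ)| ≤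
      Real.exp (D * T n) * (M * Real.exp (-(E * T n))) := by
    rw [hsum, abs_mul, abs_neg]
    have h6 := hprod _ (Finset.Subset.refl (Finset.range (d + 1)))
    rw [Finset.card_range] at h6
    have h7 : Real.exp (((d + 1 : ℕ) : ℝ) * (B * T n)) = Real.exp (D * T n) := by
      rw [hD]
      push_cast
      ring_nf
    rw [h7] at h6
    refine mul_le_mul h6 ?_ (abs_nonneg _) (Real.exp_nonneg _)
    refine (Finset.abs_sum_le_sum_abs _ _).trans ?_
    rw [hM, Finset.sum_mul]
    refine Finset.sum_le_sum fun j hj => ?_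
    rw [abs_mul, abs_pow, mul_comm]
    exact mul_le_mul_of_nonneg_left (herr j hj) (by positivity)
  rw [hval, Complex.norm_real, Real.norm_eq_abs] at h5
  have h6 : Real.exp (D * T n) ^ κ = Real.exp (κ * D * T n) := by
    rw [← Real.exp_mul]
    ring_nf
  rw [h6] at h5
  have h7 : c ≤ M * Real.exp (-(T n)) := by
    calc c ≤ Real.exp (κ * D * T n) * (Real.exp (D * T n) * (M * Real.exp (-(E * T n)))) :=
          h5.trans (mul_le_mul_of_nonneg_left hsmall (Real.exp_nonneg _))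
      _ = M * (Real.exp (κ * D * T n) * Real.exp (D * T n) * Real.exp (-(E * T n))) := by ring
      _ = M * Real.exp (-(T n)) := by
          rw [← Real.exp_add, ← Real.exp_add, hE]
          ring_nf
  have h8 : M * Real.exp (-(T n)) ≤ c / 2 := by
    rw [Real.exp_neg, ← div_eq_mul_inv, div_le_iff₀ (Real.exp_pos _)]
    rw [div_le_iff₀ hc] at h3
    linarith
  linarith

end Pool.Agent.Q163.LE
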