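import Mathlib
import Pool.Agent.Q163.LE.Field

set_option autoImplicit false

/-!
# Common denominators, and finite-dimensional spaces over fields of well approximable numbers
-/

namespace Pool.Agent.Q163.LE

open Filter Topology

variable {T : ℕ → ℝ}

/-- common denominators for finitely many numbers -/
theorem common {ι : Type*} [Fintype ι] (hT : Tendsto T atTop atTop) (k : ι → ℝ)
    (hk : ∀ i, Ap T (k i)) : ∃ A : ℝ, 1 ≤ A ∧ ∀ E : ℝ, ∀ᶠ n in atTop, ∃ q : ℕ,
      Real.exp (T n) ≤ q ∧ (q : ℝ) ≤ Real.exp (A * T n) ∧ ∃ p : ι → ℤ, ∀ i,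
        |(q : ℝ) * k i - p i| ≤ Real.exp (-(E * T n)) := by
  classical
  choose A hA hA2 using hk
  set B : ℝ := ∑ i, A i with hB
  have hB0 : 0 ≤ B := Finset.sum_nonneg fun i _ => hA i
  have hAB : ∀ i, A i ≤ B := fun i =>
    Finset.single_le_sum (f := A) (fun j _ => hA j) (Finset.mem_univ i)
  set D : ℝ := (Fintype.card ι : ℝ) * B with hD
  have hD0 : 0 ≤ D := by positivity
  refine ⟨2 + D, by linarith, fun E => ?_⟩
  have hev : ∀ᶠ n in atTop, ∀ i, ∃ p q : ℤ, q ≠ 0 ∧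
      |(p : ℝ)| ≤ Real.exp (B * T n) ∧ |(q : ℝ)| ≤ Real.exp (B * T n) ∧
      |k i - p / q| ≤ Real.exp (-((E + 2 + D) * T n)) := by
    rw [Filter.eventually_all]
    intro i
    exact Ap.mono (hAB i) hT (hA2 i _)
  filter_upwards [hev, hT.eventually_ge_atTop 1] with n h1 h2
  choose p q hq hp1 hq1 herr using h1
  set m : ℕ := ⌈Real.exp (T n)⌉₊ with hm
  have hm1 : Real.exp (T n) ≤ m := Nat.le_ceil _
  have hm2 : (m : ℝ) ≤ Real.exp (2 * T n) := by
    have h3 : (m : ℝ) < Real.exp (T n) + 1 := Nat.ceil_lt_add_one (Real.exp_nonneg _)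
    have h4 : Real.exp (2 * T n) = Real.exp (T n) * Real.exp (T n) := by
      rw [two_mul, Real.exp_add]
    have h5 : 2 ≤ Real.exp (T n) := by linarith [Real.add_one_le_exp (T n)]
    rw [h4]
    nlinarith
  set Q : ℤ := m * ∏ i, q i with hQ
  have hprod0 : (∏ i, q i) ≠ 0 := Finset.prod_ne_zero_iff.2 fun i _ => hq i
  have hprod1 : (1 : ℝ) ≤ |((∏ i, q i : ℤ) : ℝ)| := by
    rw [← Int.cast_abs]
    exact_mod_cast Int.one_le_abs hprod0
  have hprod2 : |((∏ i, q i : ℤ) : ℝ)| ≤ Real.exp (D * T n) := by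
    push_cast
    rw [Finset.abs_prod]
    refine (Finset.prod_le_prod (fun _ _ => abs_nonneg _) fun i _ => hq1 i).trans ?_
    rw [Finset.prod_const, Finset.card_univ, ← Real.exp_nat_mul, hD]
    refine Real.exp_le_exp.2 (le_of_eq ?_)
    ring
  have hQabs : ((Q.natAbs : ℕ) : ℝ) = m * |((∏ i, q i : ℤ) : ℝ)| := by
    rw [Nat.cast_natAbs, Int.cast_abs, hQ]
    push_cast
    rw [abs_mul, Nat.abs_cast]
  have hQle : ((Q.natAbs : ℕ) : ℝ) ≤ Real.exp ((2 + D) * T n) := by
    rw [hQabs, add_mul, Real.exp_add]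
    exact mul_le_mul hm2 hprod2 (abs_nonneg _) (Real.exp_nonneg _)
  refine ⟨Q.natAbs, ?_, hQle, fun i => Int.sign Q * (m * (∏ j ∈ Finset.univ.erase i, q j) * p i),
    fun i => ?_⟩
  · rw [hQabs]
    have h3 : (0 : ℝ) ≤ m := Nat.cast_nonneg _
    nlinarith
  · have hq0 : (q i : ℝ) ≠ 0 := by exact_mod_cast hq i
    have hsplit : (∏ j, q j : ℤ) = q i * ∏ j ∈ Finset.univ.erase i, q j :=
      (Finset.mul_prod_erase _ _ (Finset.mem_univ i)).symm
    have hsign : ((Q.natAbs : ℕ) : ℝ) = (Int.sign Q : ℝ) * (Q : ℝ) := by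
      have h3 : Int.sign Q * Q = ((Q.natAbs : ℕ) : ℤ) := by
        rw [Int.sign_mul_self_eq_natAbs]
      calc ((Q.natAbs : ℕ) : ℝ) = ((((Q.natAbs : ℕ) : ℤ)) : ℝ) := (Int.cast_natCast _).symm
        _ = (((Int.sign Q * Q : ℤ)) : ℝ) := by rw [h3]
        _ = (Int.sign Q : ℝ) * (Q : ℝ) := Int.cast_mul _ _
    have e : ((Q.natAbs : ℕ) : ℝ) * k i -
        ((Int.sign Q * (m * (∏ j ∈ Finset.univ.erase i, q j) * p i) : ℤ) : ℝ) =
        ((Q.natAbs : ℕ) : ℝ) * (k i - p i / q i) := by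
      rw [mul_sub, hsign]
      congr 1
      rw [hQ, hsplit]
      push_cast
      field_simp
    rw [e, abs_mul, Nat.abs_cast]
    calc ((Q.natAbs : ℕ) : ℝ) * |k i - p i / q i|
        ≤ Real.exp ((2 + D) * T n) * Real.exp (-((E + 2 + D) * T n)) :=
          mul_le_mul hQle (herr i) (abs_nonneg _) (Real.exp_nonneg _)
      _ = Real.exp (-(E * T n)) := by
          rw [← Real.exp_add]
          ring_nf

/-- a finite-dimensional space with a nonzero vector `u` is spanned by `u` and by `D` vectors -/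
theorem exists_span_gen {F M : Type*} [Field F] [AddCommGroup M] [Module F M]
    [FiniteDimensional F M] (u : M) (hu : u ≠ 0) (D : ℕ) (hD : Module.finrank F M ≤ D + 1) :
    ∃ v : Fin D → M, ∀ x : M, ∃ (r : F) (c : Fin D → F), x = r • u + ∑ i, c i • v i := by
  classical
  obtain ⟨W', hW'⟩ := Submodule.exists_isCompl (Submodule.span F {u})
  have hfin : Module.finrank F (Submodule.span F {u}) = 1 := finrank_span_singleton hu
  have hsum := Submodule.finrank_add_eq_of_isCompl hW'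
  obtain ⟨d, hdd⟩ : ∃ d, d = Module.finrank F W' := ⟨_, rfl⟩
  have hd : d ≤ D := by omega
  let b : Module.Basis (Fin d) F W' := (Module.finBasis F W').reindex (finCongr hdd.symm)
  refine ⟨fun i => if h : (i : ℕ) < d then ((b ⟨i, h⟩ : W') : M) else 0, fun x => ?_⟩
  have hmem : x ∈ Submodule.span F {u} ⊔ W' := by
    rw [hW'.sup_eq_top]
    exact Submodule.mem_top
  obtain ⟨y, hy, z, hz, hyz⟩ := Submodule.mem_sup.1 hmem
  obtain ⟨r, rfl⟩ := Submodule.mem_span_singleton.1 hy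
  refine ⟨r, fun i => if h : (i : ℕ) < d then b.repr ⟨z, hz⟩ ⟨i, h⟩ else 0, ?_⟩
  have h3 := b.sum_repr ⟨z, hz⟩
  have h4 : z = ∑ i, (b.repr ⟨z, hz⟩ i) • ((b i : W') : M) := by
    have h5 := congrArg (fun w : W' => (w : M)) h3
    simp only at h5
    rw [Submodule.coe_sum] at h5
    exact h5.symm
  rw [← hyz]
  congr 1
  refine h4.trans ?_
  symm
  rw [← Finset.sum_subset (Finset.subset_univ (Finset.univ.map (Fin.castLEEmb hd)))]
  · rw [Finset.sum_map]
    refine Finset.sum_congr rfl fun i _ => ?_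
    have hi : ((Fin.castLEEmb hd i : Fin D) : ℕ) < d := i.2
    simp only [dif_pos hi]
    rfl
  · intro i _ hi
    have hni : ¬ (i : ℕ) < d := by
      intro h
      exact hi (Finset.mem_map.2 ⟨⟨i, h⟩, Finset.mem_univ _, rfl⟩)
    simp only [dif_neg hni, zero_smul]

/-- a finite-dimensional space of real numbers containing `1` is spanned by `1` and by `D`
numbers -/
theorem exists_span (F : Subfield ℝ) (W : Submodule F ℝ) [FiniteDimensional F W] (h1 : (1 : ℝ) ∈ W)
    (D : ℕ) (hD : Module.finrank F W ≤ D + 1) :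
    ∃ v : Fin D → ℝ, ∀ x ∈ W, ∃ (r : F) (c : Fin D → F), x = r + ∑ i, (c i : ℝ) * v i := by
  have he : (⟨1, h1⟩ : W) ≠ 0 := by
    intro h
    have := congrArg Subtype.val h
    exact one_ne_zero this
  obtain ⟨v, hv⟩ := exists_span_gen (F := F) (M := W) ⟨1, h1⟩ he D hD
  refine ⟨fun i => (v i : ℝ), fun x hx => ?_⟩
  obtain ⟨r, c, h⟩ := hv ⟨x, hx⟩
  refine ⟨r, c, ?_⟩
  have h2 := congrArg (fun w : W => (w : ℝ)) h
  simp only [Submodule.coe_add, Submodule.coe_smul, Submodule.coe_sum] at h2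
  rw [h2]
  simp only [Subfield.smul_def, smul_eq_mul, mul_one]

end Pool.Agent.Q163.LE
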