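import Mathlib

set_option autoImplicit false

/-!
# Descriptions by copies and rational approximations
-/

namespace Pool.Agent.Q163.LE

/-- the digit of index `n + 1` after the point in the base `b` expansion of `x` -/
noncomputable def digit (b : ℕ) (x : ℝ) (n : ℕ) : ℤ := ⌊x * (b : ℝ) ^ (n + 1)⌋ % (b : ℤ)

/-- `F` is the set of the first positions of the phrases in a partition of the positions
`0, ..., N - 1` into phrases, each of which has length one or is a copy of an earlier block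
(which may overlap with the phrase) -/
def Parse (d : ℕ → ℤ) (N : ℕ) (F : Finset ℕ) : Prop :=
  0 ∈ F ∧ ∀ e ∈ F, e < N → (e + 1 ∈ F ∨ e + 1 = N) ∨ ∃ h, 1 ≤ h ∧ h ≤ e ∧
    ∀ n, e ≤ n → n < N → (∀ g ∈ F, g ≤ e ∨ n < g) → d n = d (n - h)

/-- the least number of phrases for the first `N` digits of `x` in base `b` -/
noncomputable def phrases (b : ℕ) (x : ℝ) (N : ℕ) : ℕ :=
  sInf {k | ∃ F : Finset ℕ, Parse (digit b x) N F ∧ F.card = k}

lemma parse_range (d : ℕ → ℤ) (N : ℕ) : Parse d N (Finset.range (N + 1)) := by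
  refine ⟨Finset.mem_range.2 (by omega), fun e _ he => Or.inl (Or.inl ?_)⟩
  exact Finset.mem_range.2 (by omega)

lemma phrases_spec (b : ℕ) (x : ℝ) (N : ℕ) :
    ∃ F : Finset ℕ, Parse (digit b x) N F ∧ F.card = phrases b x N :=
  Nat.sInf_mem (s := {k | ∃ F : Finset ℕ, Parse (digit b x) N F ∧ F.card = k})
    ⟨_, _, parse_range _ N, rfl⟩

/-- the integers `⌊x b^n⌋` -/
noncomputable def fl (b : ℕ) (x : ℝ) (n : ℕ) : ℤ := ⌊x * (b : ℝ) ^ n⌋

lemma fl_succ (b : ℕ) (hb : 2 ≤ b) (x : ℝ) (n : ℕ) :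
    fl b x (n + 1) = b * fl b x n + digit b x n := by
  have hb0 : (0 : ℤ) < b := by omega
  have h1 : fl b x (n + 1) / (b : ℤ) = fl b x n := by
    have h := Int.cast_mul_floor_div_cancel_of_pos hb0 (x * (b : ℝ) ^ n)
    unfold fl
    rw [← h]
    congr 2
    push_cast
    ring
  have h2 := Int.emod_add_mul_ediv (fl b x (n + 1)) b
  rw [h1] at h2
  unfold digit
  unfold fl at h2 ⊢
  linarith

lemma copy_sub (b : ℕ) (hb : 2 ≤ b) (x : ℝ) (e h : ℕ) (he : h ≤ e) (M : ℕ) (heM : e ≤ M)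
    (hc : ∀ n, e ≤ n → n < M → digit b x n = digit b x (n - h)) :
    fl b x M - fl b x (M - h) = (b : ℤ) ^ (M - e) * (fl b x e - fl b x (e - h)) := by
  induction M, heM using Nat.le_induction with
  | base => rw [Nat.sub_self, pow_zero, one_mul]
  | succ M hM ih =>
    have h1 := ih (fun n h1 h2 => hc n h1 (by omega))
    have h2 : M + 1 - h = (M - h) + 1 := by omega
    have h3 : M + 1 - e = (M - e) + 1 := by omega
    rw [h2, fl_succ b hb, fl_succ b hb, hc M hM (by omega), h3, pow_succ]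
    linear_combination (b : ℤ) * h1

lemma copy_approx (b : ℕ) (hb : 2 ≤ b) (x : ℝ) (e h M : ℕ) (h1 : 1 ≤ h) (he : h ≤ e)
    (heM : e ≤ M) (hc : ∀ n, e ≤ n → n < M → digit b x n = digit b x (n - h)) :
    ∃ p q : ℤ, q ≠ 0 ∧ |(p : ℝ)| ≤ (|x| + 2) * (b : ℝ) ^ e ∧ |(q : ℝ)| ≤ (b : ℝ) ^ e ∧
      |x - p / q| ≤ 2 / (b : ℝ) ^ M := by
  have hbr : (2 : ℝ) ≤ b := by exact_mod_cast hb
  have hb0 : (0 : ℝ) < b := by linarith
  have hpow : (2 : ℝ) ≤ (b : ℝ) ^ h := by
    calc (2 : ℝ) ≤ b := hbr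
      _ = (b : ℝ) ^ 1 := (pow_one _).symm
      _ ≤ (b : ℝ) ^ h := pow_le_pow_right₀ (by linarith) h1
  set p : ℤ := fl b x e - fl b x (e - h) with hp
  set q : ℤ := (b : ℤ) ^ (e - h) * ((b : ℤ) ^ h - 1) with hq
  have hqr : (q : ℝ) = (b : ℝ) ^ (e - h) * ((b : ℝ) ^ h - 1) := by rw [hq]; push_cast; ring
  have hqpos : (0 : ℝ) < q := by
    rw [hqr]
    exact mul_pos (by positivity) (by linarith)
  have hqe : (q : ℝ) ≤ (b : ℝ) ^ e := by
    have h3 : (b : ℝ) ^ e = (b : ℝ) ^ (e - h) * (b : ℝ) ^ h := by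
      rw [← pow_add]
      congr 1
      omega
    rw [hqr, h3]
    exact mul_le_mul_of_nonneg_left (by linarith) (by positivity)
  have hsub := copy_sub b hb x e h he M heM hc
  have hM : (b : ℝ) ^ (M - e) * q = (b : ℝ) ^ M - (b : ℝ) ^ (M - h) := by
    rw [hqr, mul_sub, mul_one, mul_sub, ← pow_add, ← pow_add, ← pow_add]
    congr 2 <;> omega
  have hMh : (b : ℝ) ^ (M - h) * 2 ≤ (b : ℝ) ^ M := by
    have h3 : (b : ℝ) ^ M = (b : ℝ) ^ (M - h) * (b : ℝ) ^ h := by
      rw [← pow_add]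
      congr 1
      omega
    rw [h3]
    exact mul_le_mul_of_nonneg_left hpow (by positivity)
  have hkey : |(b : ℝ) ^ (M - e) * q * x - (b : ℝ) ^ (M - e) * p| ≤ 1 := by
    have h3 : ((b : ℝ) ^ (M - e) * p : ℝ) = (fl b x M : ℝ) - (fl b x (M - h) : ℝ) := by
      rw [hp]
      exact_mod_cast hsub.symm
    rw [h3, hM]
    have h4 : (fl b x M : ℝ) ≤ x * (b : ℝ) ^ M := Int.floor_le _
    have h5 : x * (b : ℝ) ^ M < (fl b x M : ℝ) + 1 := Int.lt_floor_add_one _
    have h6 : (fl b x (M - h) : ℝ) ≤ x * (b : ℝ) ^ (M - h) := Int.floor_le _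
    have h7 : x * (b : ℝ) ^ (M - h) < (fl b x (M - h) : ℝ) + 1 := Int.lt_floor_add_one _
    rw [abs_le]
    constructor <;> nlinarith
  have hpos : (0 : ℝ) < (b : ℝ) ^ (M - e) := by positivity
  have herr : |x - p / q| ≤ 2 / (b : ℝ) ^ M := by
    have h3 : x - (p : ℝ) / q =
        ((b : ℝ) ^ (M - e) * q * x - (b : ℝ) ^ (M - e) * p) / ((b : ℝ) ^ (M - e) * q) := by
      field_simp
    have h4 : (0 : ℝ) < (b : ℝ) ^ (M - e) * q := mul_pos hpos hqpos
    rw [h3, abs_div, abs_of_pos h4, div_le_div_iff₀ h4 (by positivity)]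
    have h5 : (b : ℝ) ^ M ≤ 2 * ((b : ℝ) ^ (M - e) * q) := by
      rw [hM]
      linarith
    have h6 : (0 : ℝ) < (b : ℝ) ^ M := by positivity
    calc |(b : ℝ) ^ (M - e) * q * x - (b : ℝ) ^ (M - e) * p| * (b : ℝ) ^ M
        ≤ 1 * (b : ℝ) ^ M := mul_le_mul_of_nonneg_right hkey h6.le
      _ ≤ 2 * ((b : ℝ) ^ (M - e) * q) := by rw [one_mul]; exact h5
  refine ⟨p, q, fun h0 => ?_, ?_, ?_, herr⟩
  · rw [h0, Int.cast_zero] at hqpos
    exact lt_irrefl _ hqpos
  · have h3 : |(p : ℝ) / q| ≤ |x| + 2 := by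
      have h4 : |(p : ℝ) / q| ≤ |x| + |x - p / q| := by
        have h5 := abs_sub x (x - p / q)
        rwa [sub_sub_cancel] at h5
      have h5 : 2 / (b : ℝ) ^ M ≤ 2 := by
        rw [div_le_iff₀ (by positivity)]
        have : (1 : ℝ) ≤ (b : ℝ) ^ M := one_le_pow₀ (by linarith)
        linarith
      linarith
    have h4 : (p : ℝ) = (p / q) * q := by field_simp
    rw [h4, abs_mul, abs_of_pos hqpos]
    exact mul_le_mul h3 hqe hqpos.le (by positivity)
  · rwa [abs_of_pos hqpos]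

/-- a window without first positions of phrases gives a good approximation -/
theorem window (b : ℕ) (hb : 2 ≤ b) (x : ℝ) (N : ℕ) (F : Finset ℕ)
    (hF : Parse (digit b x) N F) (T W : ℝ) (hT : 0 < T) (hTW : T + Real.log b < W)
    (hN : W ≤ N * Real.log b)
    (hfree : ∀ g ∈ F, ¬ (T ≤ g * Real.log b ∧ g * Real.log b < W)) :
    ∃ p q : ℤ, q ≠ 0 ∧ |(p : ℝ)| ≤ (|x| + 2) * Real.exp T ∧ |(q : ℝ)| ≤ Real.exp T ∧
      |x - p / q| ≤ 2 * Real.exp (-W) := by
  classical
  have hbr : (2 : ℝ) ≤ b := by exact_mod_cast hb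
  have hb0 : (0 : ℝ) < b := by linarith
  have hlog : 0 < Real.log b := Real.log_pos (by linarith)
  have hpow : ∀ n : ℕ, (b : ℝ) ^ n = Real.exp (n * Real.log b) := by
    intro n
    rw [Real.exp_nat_mul, Real.exp_log hb0]
  obtain ⟨h0, hph⟩ := hF
  set G : Finset ℕ := F.filter fun g : ℕ => (g : ℝ) * Real.log b < T with hG
  have hGne : G.Nonempty := ⟨0, Finset.mem_filter.2 ⟨h0, by simpa using hT⟩⟩
  set e := G.max' hGne with he
  have heG : e ∈ G := Finset.max'_mem _ _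
  obtain ⟨heF, heT⟩ := Finset.mem_filter.1 heG
  have hbig : ∀ g ∈ F, e < g → W ≤ g * Real.log b := by
    intro g hg hlt
    by_contra hcon
    push Not at hcon
    by_cases hgT : (g : ℝ) * Real.log b < T
    · have h1 := Finset.le_max' G g (Finset.mem_filter.2 ⟨hg, hgT⟩)
      omega
    · exact hfree g hg ⟨not_lt.1 hgT, hcon⟩
  have hlt : ∀ n : ℕ, (n : ℝ) * Real.log b < W → n < N := by
    intro n hn
    have h1 : (n : ℝ) * Real.log b < N * Real.log b := lt_of_lt_of_le hn hN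
    have h2 := lt_of_mul_lt_mul_right h1 hlog.le
    exact_mod_cast h2
  have he1 : ((e + 1 : ℕ) : ℝ) * Real.log b < W := by
    push_cast
    linarith
  have heN : e < N := hlt e (by linarith)
  rcases hph e heF heN with (h1 | h1) | ⟨h, h1, h2, h3⟩
  · exact absurd (hbig _ h1 (Nat.lt_succ_self e)) (not_le.2 he1)
  · exfalso
    rw [h1] at he1
    linarith
  · set M := ⌈W / Real.log b⌉₊ with hM
    have hMW : W ≤ M * Real.log b := by
      have := Nat.le_ceil (W / Real.log b)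
      rwa [div_le_iff₀ hlog] at this
    have hnM : ∀ n : ℕ, n < M → (n : ℝ) * Real.log b < W := by
      intro n hn
      have h4 := Nat.lt_ceil.1 hn
      rwa [lt_div_iff₀ hlog] at h4
    have heM : e ≤ M := by
      by_contra hcon
      push Not at hcon
      have h4 : (M : ℝ) ≤ e := by exact_mod_cast hcon.le
      have h5 := mul_le_mul_of_nonneg_right h4 hlog.le
      linarith
    obtain ⟨p, q, hq, hp1, hq1, herr⟩ := copy_approx b hb x e h M h1 h2 heM (by
      intro n hn1 hn2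
      have hnW := hnM n hn2
      refine h3 n hn1 (hlt n hnW) fun g hg => ?_
      by_cases hge : g ≤ e
      · exact Or.inl hge
      · right
        have h4 := hbig g hg (not_le.1 hge)
        have h5 : (n : ℝ) * Real.log b < g * Real.log b := lt_of_lt_of_le hnW h4
        exact_mod_cast lt_of_mul_lt_mul_right h5 hlog.le)
    have hbe : (b : ℝ) ^ e ≤ Real.exp T := by
      rw [hpow]
      exact Real.exp_le_exp.2 heT.le
    refine ⟨p, q, hq, hp1.trans (mul_le_mul_of_nonneg_left hbe (by positivity)),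
      hq1.trans hbe, herr.trans ?_⟩
    rw [hpow, div_eq_mul_inv, ← Real.exp_neg]
    exact mul_le_mul_of_nonneg_left (Real.exp_le_exp.2 (by linarith)) (by norm_num)

/-- there is a window without first positions -/
lemma exists_window {ι : Type*} [Fintype ι] (b : ι → ℕ) (F : ι → Finset ℕ) (w : ℝ) (hw : 1 < w)
    (j0 : ℕ) : ∃ j, j0 ≤ j ∧ j ≤ j0 + ∑ i, (F i).card ∧
      ∀ i, ∀ g ∈ F i, ¬ (w ^ j ≤ g * Real.log (b i) ∧ g * Real.log (b i) < w ^ (j + 1)) := by
  classical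
  by_contra hcon
  push Not at hcon
  have hex : ∀ j : ℕ, ∃ x : (_ : ι) × ℕ, j ∈ Finset.Icc j0 (j0 + ∑ i, (F i).card) →
      x.2 ∈ F x.1 ∧ w ^ j ≤ x.2 * Real.log (b x.1) ∧ x.2 * Real.log (b x.1) < w ^ (j + 1) := by
    intro j
    by_cases hj : j ∈ Finset.Icc j0 (j0 + ∑ i, (F i).card)
    · obtain ⟨h1, h2⟩ := Finset.mem_Icc.1 hj
      obtain ⟨i, g, hg, h3, h4⟩ := hcon j h1 h2
      exact ⟨⟨i, g⟩, fun _ => ⟨hg, h3, h4⟩⟩
    · by_cases hι : Nonempty ι
      · exact ⟨⟨hι.some, 0⟩, fun h => absurd h hj⟩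
      · exfalso
        obtain ⟨i, _⟩ := hcon j0 le_rfl (by omega)
        exact hι ⟨i⟩
  choose f hf using hex
  have h1 : (Finset.Icc j0 (j0 + ∑ i, (F i).card)).card ≤ (Finset.univ.sigma F).card := by
    refine Finset.card_le_card_of_injOn f ?_ ?_
    · intro j hj
      have h2 := hf j hj
      rw [Finset.mem_coe, Finset.mem_sigma]
      exact ⟨Finset.mem_univ _, h2.1⟩
    · have key : ∀ j j' : ℕ, j ∈ Finset.Icc j0 (j0 + ∑ i, (F i).card) →
          j' ∈ Finset.Icc j0 (j0 + ∑ i, (F i).card) → f j = f j' → ¬ j < j' := by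
        intro j j' hj hj' hjj hlt
        have h2 := hf j hj
        have h3 := hf j' hj'
        rw [← hjj] at h3
        have h4 : w ^ (j + 1) ≤ w ^ j' := pow_le_pow_right₀ hw.le (by omega)
        linarith [h2.2.2, h3.2.1]
      intro j hj j' hj' hjj
      rcases lt_trichotomy j j' with h | h | h
      · exact absurd h (key j j' hj hj' hjj)
      · exact h
      · exact absurd h (key j' j hj' hj hjj.symm)
  rw [Nat.card_Icc, Finset.card_sigma] at h1
  omega

end Pool.Agent.Q163.LE
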