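import Mathlib
import Pool.Agent.Q163.LE.Field
import Pool.Agent.Q163.LE.Parse
import Pool.Agent.W472.AC.EMeas2

set_option autoImplicit false

/-!
# Common scales of numbers with few phrases
-/

namespace Pool.Agent.Q163.LE

open Filter Topology

/-- the numbers with `o (log N)` phrases, `N ∈ S`, in some base -/
def lz (S : Set ℕ) : Set ℝ :=
  {x | ∃ b : ℕ, 2 ≤ b ∧
    Tendsto (fun N : ℕ => (phrases b x N : ℝ) / Real.log N) (atTop ⊓ 𝓟 S) (𝓝 0)}

theorem scales {ι : Type*} [Fintype ι] (S : Set ℕ) (hS : S.Infinite) (b : ι → ℕ)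
    (hb : ∀ i, 2 ≤ b i) (x : ι → ℝ)
    (hx : ∀ i, Tendsto (fun N : ℕ => (phrases (b i) (x i) N : ℝ) / Real.log N)
      (atTop ⊓ 𝓟 S) (𝓝 0)) :
    ∃ T : ℕ → ℝ, Tendsto T atTop atTop ∧ ∀ i, Ap T (x i) := by
  classical
  have hneBot : (atTop ⊓ 𝓟 S : Filter ℕ).NeBot :=
    frequently_mem_iff_neBot.1 (Nat.frequently_atTop_iff_infinite.2 hS)
  have hlogb : ∀ i, Real.log 2 ≤ Real.log (b i) := fun i =>
    Real.log_le_log two_pos (by exact_mod_cast hb i)
  have hlog2 : 0 < Real.log 2 := Real.log_pos one_lt_two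
  have key : ∀ n : ℕ, ∃ t : ℝ, (n : ℝ) + 1 ≤ t ∧ ∀ i, ∃ p q : ℤ, q ≠ 0 ∧
      |(p : ℝ)| ≤ (|x i| + 2) * Real.exp t ∧ |(q : ℝ)| ≤ Real.exp t ∧
      |x i - p / q| ≤ 2 * Real.exp (-(((n : ℝ) + 2) * t)) := by
    intro n
    set w : ℝ := (n : ℝ) + 2 with hw
    have hw2 : 2 ≤ w := by rw [hw]; linarith [(Nat.cast_nonneg n : (0 : ℝ) ≤ n)]
    have hlogw : 0 < Real.log w := Real.log_pos (by linarith)
    obtain ⟨j0, hj0⟩ := pow_unbounded_of_one_lt ((n : ℝ) + 1 + ∑ i, Real.log (b i))
      (show (1 : ℝ) < w by linarith)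
    set m : ℝ := (Fintype.card ι : ℝ) with hm
    have hm0 : 0 ≤ m := Nat.cast_nonneg _
    set ε : ℝ := 1 / (2 * (m + 1) * Real.log w) with hε
    have hε0 : 0 < ε := by positivity
    have hev1 : ∀ᶠ N in (atTop ⊓ 𝓟 S : Filter ℕ), ∀ i,
        (phrases (b i) (x i) N : ℝ) / Real.log N < ε := by
      rw [Filter.eventually_all]
      intro i
      exact (hx i).eventually (gt_mem_nhds hε0)
    have hev2 : ∀ᶠ N : ℕ in (atTop ⊓ 𝓟 S : Filter ℕ), 2 ≤ N :=
      (eventually_ge_atTop 2).filter_mono inf_le_left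
    have hev3 : ∀ᶠ N : ℕ in (atTop ⊓ 𝓟 S : Filter ℕ),
        w ^ (j0 + 1) / Real.log 2 ≤ Real.exp (Real.log N / 2) := by
      refine Eventually.filter_mono inf_le_left ?_
      have h1 : Tendsto (fun N : ℕ => Real.exp (Real.log N / 2)) atTop atTop :=
        Real.tendsto_exp_atTop.comp
          ((Real.tendsto_log_atTop.comp tendsto_natCast_atTop_atTop).atTop_div_const two_pos)
      exact h1.eventually_ge_atTop _
    obtain ⟨N, h1, h2, h3⟩ := (hev1.and (hev2.and hev3)).exists
    have hN0 : (0 : ℝ) < N := by exact_mod_cast (by omega : 0 < N)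
    have hlogN : 0 < Real.log N := Real.log_pos (by exact_mod_cast (by omega : 1 < N))
    choose F hF hFc using fun i => phrases_spec (b i) (x i) N
    obtain ⟨j, hj1, hj2, hfree⟩ := exists_window b F w (by linarith) j0
    -- the number of phrases
    have hZ : ((∑ i, (F i).card : ℕ) : ℝ) * Real.log w ≤ Real.log N / 2 := by
      have h4 : ((∑ i, (F i).card : ℕ) : ℝ) ≤ m * (ε * Real.log N) := by
        push_cast
        have h5 : ∀ i ∈ (Finset.univ : Finset ι), ((F i).card : ℝ) ≤ ε * Real.log N := by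
          intro i _
          rw [hFc]
          exact ((div_lt_iff₀ hlogN).1 (h1 i)).le
        refine (Finset.sum_le_card_nsmul _ _ _ h5).trans ?_
        rw [Finset.card_univ, nsmul_eq_mul]
      calc ((∑ i, (F i).card : ℕ) : ℝ) * Real.log w ≤ (m * (ε * Real.log N)) * Real.log w :=
            mul_le_mul_of_nonneg_right h4 hlogw.le
        _ = (m / (m + 1)) * (Real.log N / 2) := by
            rw [hε]
            field_simp
        _ ≤ 1 * (Real.log N / 2) := by
            refine mul_le_mul_of_nonneg_right ?_ (by positivity)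
            rw [div_le_one (by positivity)]
            linarith
        _ = _ := one_mul _
    have hWN : w ^ (j + 1) ≤ N * Real.log 2 := by
      calc w ^ (j + 1) ≤ w ^ (j0 + 1 + ∑ i, (F i).card) :=
            pow_le_pow_right₀ (by linarith) (by omega)
        _ = w ^ (j0 + 1) * Real.exp (((∑ i, (F i).card : ℕ) : ℝ) * Real.log w) := by
            rw [pow_add, Real.exp_nat_mul, Real.exp_log (by linarith)]
        _ ≤ (Real.exp (Real.log N / 2) * Real.log 2) * Real.exp (Real.log N / 2) := by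
            refine mul_le_mul ?_ (Real.exp_le_exp.2 hZ) (by positivity) (by positivity)
            rwa [div_le_iff₀ hlog2] at h3
        _ = (Real.exp (Real.log N / 2) * Real.exp (Real.log N / 2)) * Real.log 2 := by ring
        _ = N * Real.log 2 := by
            rw [← Real.exp_add, add_halves, Real.exp_log hN0]
    have hTj : w ^ j0 ≤ w ^ j := pow_le_pow_right₀ (by linarith) hj1
    refine ⟨w ^ j, ?_, fun i => ?_⟩
    · have h5 : 0 ≤ ∑ i, Real.log (b i) := Finset.sum_nonneg fun i _ =>
        hlog2.le.trans (hlogb i)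
      linarith
    · have h5 : Real.log (b i) ≤ ∑ i, Real.log (b i) :=
        Finset.single_le_sum (f := fun i => Real.log (b i))
          (fun i _ => hlog2.le.trans (hlogb i)) (Finset.mem_univ i)
      have h6 : w ^ (j + 1) = w * w ^ j := pow_succ' _ _
      have hTpos : 0 < w ^ j := by positivity
      have h7 : w ^ j + Real.log (b i) < w ^ (j + 1) := by
        have h8 : 2 * w ^ j ≤ w * w ^ j := mul_le_mul_of_nonneg_right hw2 hTpos.le
        have h9 : (0 : ℝ) ≤ n := Nat.cast_nonneg n
        rw [h6]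
        linarith
      have h8 : w ^ (j + 1) ≤ N * Real.log (b i) :=
        hWN.trans (mul_le_mul_of_nonneg_left (hlogb i) hN0.le)
      have h9 := window (b i) (hb i) (x i) N (F i) (hF i) (w ^ j) (w ^ (j + 1)) hTpos h7 h8
        (hfree i)
      rw [h6] at h9
      exact h9
  choose T hT1 hT2 using key
  have hT : Tendsto T atTop atTop :=
    tendsto_atTop_mono (fun n => (by linarith [hT1 n] : (n : ℝ) ≤ T n))
      tendsto_natCast_atTop_atTop
  refine ⟨T, hT, fun i => ⟨2, zero_le_two, fun E => ?_⟩⟩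
  filter_upwards [ev_ge hT (|x i| + 2), ev_ge hT 2, eventually_ge_atTop ⌈|E|⌉₊,
    hT.eventually_ge_atTop 0] with n h1 h2 h3 h4
  obtain ⟨p, q, hq, a1, a2, a3⟩ := hT2 n i
  have e2 : Real.exp (2 * T n) = Real.exp (T n) * Real.exp (T n) := by
    rw [← Real.exp_add, two_mul]
  refine ⟨p, q, hq, a1.trans ?_, a2.trans ?_, a3.trans ?_⟩
  · rw [e2]
    exact mul_le_mul_of_nonneg_right h1 (Real.exp_nonneg _)
  · exact Real.exp_le_exp.2 (by linarith)
  · have hE : E ≤ n := (le_abs_self E).trans ((Nat.le_ceil _).trans (by exact_mod_cast h3))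
    calc 2 * Real.exp (-(((n : ℝ) + 2) * T n))
        ≤ Real.exp (T n) * Real.exp (-(((n : ℝ) + 2) * T n)) :=
          mul_le_mul_of_nonneg_right h2 (Real.exp_nonneg _)
      _ ≤ Real.exp (-(E * T n)) := by
          rw [← Real.exp_add]
          refine Real.exp_le_exp.2 ?_
          nlinarith

lemma mem_closure_finite {Z : Set ℝ} {a : ℝ} (ha : a ∈ Subfield.closure Z) :
    ∃ s : Finset ℝ, (s : Set ℝ) ⊆ Z ∧ a ∈ Subfield.closure (s : Set ℝ) := by
  classical
  induction ha using Subfield.closure_induction with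
  | mem x hx => exact ⟨{x}, by simpa using hx, Subfield.subset_closure (by simp)⟩
  | one => exact ⟨∅, by simp, one_mem _⟩
  | add x y _ _ hx hy =>
    obtain ⟨s, h1, h2⟩ := hx
    obtain ⟨t, h3, h4⟩ := hy
    refine ⟨s ∪ t, by rw [Finset.coe_union]; exact Set.union_subset h1 h3, ?_⟩
    exact add_mem (Subfield.closure_mono (by rw [Finset.coe_union]; exact Set.subset_union_left) h2)
      (Subfield.closure_mono (by rw [Finset.coe_union]; exact Set.subset_union_right) h4)
  | neg x _ hx =>
    obtain ⟨s, h1, h2⟩ := hx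
    exact ⟨s, h1, neg_mem h2⟩
  | inv x _ hx =>
    obtain ⟨s, h1, h2⟩ := hx
    exact ⟨s, h1, inv_mem h2⟩
  | mul x y _ _ hx hy =>
    obtain ⟨s, h1, h2⟩ := hx
    obtain ⟨t, h3, h4⟩ := hy
    refine ⟨s ∪ t, by rw [Finset.coe_union]; exact Set.union_subset h1 h3, ?_⟩
    exact mul_mem (Subfield.closure_mono (by rw [Finset.coe_union]; exact Set.subset_union_left) h2)
      (Subfield.closure_mono (by rw [Finset.coe_union]; exact Set.subset_union_right) h4)

/-- numbers with transcendence measures of finite type are transcendental over the field -/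
theorem transc (S : Set ℕ) (hS : S.Infinite) (θ : ℝ)
    (hθ : Pool.Agent.TH456.TM.MeasT (θ : ℂ)) :
    Transcendental (Subfield.closure (lz S)) θ := by
  classical
  rintro ⟨P, hP0, hP⟩
  have hex : ∀ j : ℕ, ∃ s : Finset ℝ, (s : Set ℝ) ⊆ lz S ∧
      ((P.coeff j : Subfield.closure (lz S)) : ℝ) ∈ Subfield.closure (s : Set ℝ) :=
    fun j => mem_closure_finite (P.coeff j).2
  choose s hs1 hs2 using hex
  set U : Finset ℝ := (Finset.range (P.natDegree + 1)).biUnion s with hU
  have hUS : ∀ u ∈ U, u ∈ lz S := by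
    intro u hu
    obtain ⟨j, _, hj⟩ := Finset.mem_biUnion.1 hu
    exact hs1 j hj
  choose! b hb hbT using hUS
  obtain ⟨T, hT, hAp⟩ := scales (ι := U) S hS (fun u => b u) (fun u => hb u u.2)
    (fun u => (u : ℝ)) (fun u => hbT u u.2)
  have hle : Subfield.closure (U : Set ℝ) ≤ ApField T hT := by
    rw [Subfield.closure_le]
    intro u hu
    exact hAp ⟨u, hu⟩
  refine not_root hT θ hθ P.natDegree (fun j => ((P.coeff j : Subfield.closure (lz S)) : ℝ))
    (fun j hj => ?_) ?_ ?_
  · have h1 : ((P.coeff j : Subfield.closure (lz S)) : ℝ) ∈ Subfield.closure (U : Set ℝ) := by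
      refine Subfield.closure_mono ?_ (hs2 j)
      intro u hu
      exact Finset.mem_coe.2 (Finset.mem_biUnion.2 ⟨j, Finset.mem_range.2 (by omega), hu⟩)
    exact hle h1
  · intro h
    have h1 : P.coeff P.natDegree = 0 := by
      exact_mod_cast h
    exact hP0 (Polynomial.leadingCoeff_eq_zero.1 h1)
  · rw [Polynomial.aeval_eq_sum_range] at hP
    rw [← hP]
    exact Finset.sum_congr rfl fun j _ => rfl

open Polynomial in
/-- the explicit inequality -/
theorem explicit (b c : ℕ) (hb : 2 ≤ b) (hc : 2 ≤ c) (η : ℝ) (hη : 0 < η) :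
    ∃ C : ℝ, ∀ t : ℝ, ∀ N : ℕ, 1 ≤ N →
      Real.log N / Real.log (4 + η) - C ≤
        (phrases b (t + Real.exp 1) N : ℝ) + phrases c (t - Real.exp 1) N := by
  classical
  obtain ⟨c0, hc0, hmeas⟩ := Pool.Agent.W472.AC.e_measP 1 (η / 4) (by positivity)
  set κ : ℝ := ((1 : ℕ) : ℝ) + η / 4 with hκ
  have hκ' : κ = 1 + η / 4 := by rw [hκ]; norm_num
  have hκ0 : 0 ≤ κ := by rw [hκ']; positivity
  set w : ℝ := 4 + η with hw
  have hw4 : 4 < w := by rw [hw]; linarith
  have hlogw : 0 < Real.log w := Real.log_pos (by linarith)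
  have hlog2 : 0 < Real.log 2 := Real.log_pos one_lt_two
  have hlogb : Real.log 2 ≤ Real.log b := Real.log_le_log two_pos (by exact_mod_cast hb)
  have hlogc : Real.log 2 ≤ Real.log c := Real.log_le_log two_pos (by exact_mod_cast hc)
  have hlim : ∀ᶠ T : ℝ in atTop, 4 * (10 : ℝ) ^ κ * Real.exp (-(η / 2 * T)) < c0 := by
    have h1 : Tendsto (fun T : ℝ => Real.exp (-(η / 2 * T))) atTop (𝓝 0) :=
      Real.tendsto_exp_neg_atTop_nhds_zero.comp (tendsto_id.const_mul_atTop (by positivity))
    have h2 := h1.const_mul (4 * (10 : ℝ) ^ κ)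
    rw [mul_zero] at h2
    exact h2.eventually (gt_mem_nhds hc0)
  obtain ⟨T0, hT0⟩ := Filter.eventually_atTop.1 hlim
  obtain ⟨j0, hj0⟩ := pow_unbounded_of_one_lt (max T0 0 + 1 + Real.log b + Real.log c)
    (show (1 : ℝ) < w by linarith)
  refine ⟨1 + j0 - Real.log (Real.log 2) / Real.log w, fun t N hN => ?_⟩
  have hN0 : (0 : ℝ) < N := by exact_mod_cast (by omega : 0 < N)
  obtain ⟨F, hF, hFc⟩ := phrases_spec b (t + Real.exp 1) N
  obtain ⟨G, hG, hGc⟩ := phrases_spec c (t - Real.exp 1) N
  obtain ⟨j, hj1, hj2, hfree⟩ := exists_window (ι := Bool) (fun i => if i then b else c)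
    (fun i => if i then F else G) w (by linarith) j0
  rw [Fintype.sum_bool] at hj2
  simp only [if_true, Bool.false_eq_true, if_false] at hj2
  rw [← hFc, ← hGc]
  by_cases hcase : w ^ (j + 1) ≤ N * Real.log 2
  · exfalso
    have hTj : w ^ j0 ≤ w ^ j := pow_le_pow_right₀ (by linarith) hj1
    set T := w ^ j with hTdef
    have hTpos : 0 < T := by positivity
    have h6 : w ^ (j + 1) = w * T := pow_succ' _ _
    have hmax : T0 ≤ max T0 0 := le_max_left _ _
    have hmax0 : 0 ≤ max T0 0 := le_max_right _ _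
    have hTT0 : T0 ≤ T := by linarith
    have h2T : 4 * T ≤ w * T := mul_le_mul_of_nonneg_right hw4.le hTpos.le
    have hf1 := hfree true
    have hf2 := hfree false
    simp only [if_true, Bool.false_eq_true, if_false] at hf1 hf2
    obtain ⟨p, q, hq, a1, a2, a3⟩ := window b hb (t + Real.exp 1) N F hF T (w ^ (j + 1)) hTpos
      (by rw [h6]; linarith) (hcase.trans (mul_le_mul_of_nonneg_left hlogb hN0.le)) hf1
    obtain ⟨p', q', hq', a1', a2', a3'⟩ := window c hc (t - Real.exp 1) N G hG T
      (w ^ (j + 1)) hTpos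
      (by rw [h6]; linarith) (hcase.trans (mul_le_mul_of_nonneg_left hlogc hN0.le)) hf2
    have hq0 : (q : ℝ) ≠ 0 := by exact_mod_cast hq
    have hq0' : (q' : ℝ) ≠ 0 := by exact_mod_cast hq'
    set P : ℤ[X] := C (2 * (q * q')) * X - C (p * q' - p' * q) with hP
    have hc1 : P.coeff 1 = 2 * (q * q') := by
      rw [hP, coeff_sub, coeff_C_mul, coeff_X_one, mul_one, coeff_C]
      norm_num
    have hc0' : P.coeff 0 = - (p * q' - p' * q) := by
      rw [hP, coeff_sub, coeff_C_mul, coeff_X_zero, mul_zero, coeff_C_zero, zero_sub]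
    have hP0 : P ≠ 0 := by
      intro h
      rw [h, coeff_zero] at hc1
      exact mul_ne_zero two_ne_zero (mul_ne_zero hq hq') hc1.symm
    have hPd : P.natDegree ≤ 1 := by
      rw [hP]
      refine (natDegree_sub_le _ _).trans ?_
      rw [natDegree_C]
      exact max_le ((natDegree_C_mul_le _ _).trans natDegree_X_le) (by omega)
    have hqq : |(q : ℝ) * q'| ≤ Real.exp (2 * T) := by
      rw [abs_mul, two_mul, Real.exp_add]
      exact mul_le_mul a2 a2' (abs_nonneg _) (Real.exp_nonneg _)
    have hval : aeval (Real.exp 1) P = (q * q' : ℝ) *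
        ((t + Real.exp 1 - p / q) - (t - Real.exp 1 - p' / q')) + 0 := by
      rw [hP]
      simp only [map_sub, map_mul, aeval_C, aeval_X]
      simp only [algebraMap_int_eq, eq_intCast, map_mul, map_sub]
      push_cast
      field_simp
      ring
    have hexp1 : Real.exp (-(w ^ (j + 1))) ≤ 1 := by
      rw [Real.exp_le_one_iff]
      have : 0 < w ^ (j + 1) := by positivity
      linarith
    have hsmall : |aeval (Real.exp 1) P| ≤ Real.exp (2 * T) * (4 * Real.exp (-(w * T))) := by
      rw [hval, add_zero, abs_mul]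
      refine mul_le_mul hqq ?_ (abs_nonneg _) (Real.exp_nonneg _)
      refine (abs_sub _ _).trans ?_
      rw [← h6]
      linarith
    have he3 : Real.exp 1 < 3 := by
      have := Real.exp_one_lt_d9
      linarith
    have hH : ∀ i, |(P.coeff i : ℝ)| ≤ 10 * Real.exp (2 * T) := by
      intro i
      have hE2 : 0 < Real.exp (2 * T) := Real.exp_pos _
      match i with
      | 0 =>
        have h7 : ((P.coeff 0 : ℤ) : ℝ) = aeval (Real.exp 1) P - 2 * (q * q') * Real.exp 1 := by
          rw [hc0', hval]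
          push_cast
          field_simp
          ring
        rw [h7]
        refine (abs_sub _ _).trans ?_
        have h8 : |aeval (Real.exp 1) P| ≤ 4 * Real.exp (2 * T) := by
          refine hsmall.trans ?_
          have h9 : Real.exp (-(w * T)) ≤ 1 := by rw [← h6]; exact hexp1
          nlinarith
        have h9 : |2 * ((q : ℝ) * q') * Real.exp 1| ≤ 6 * Real.exp (2 * T) := by
          rw [abs_mul, abs_mul, abs_two, abs_of_pos (Real.exp_pos 1)]
          have h10 : 0 ≤ |(q : ℝ) * q'| := abs_nonneg _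
          nlinarith [Real.exp_pos 1]
        linarith
      | 1 =>
        rw [hc1]
        push_cast
        rw [abs_mul, abs_two]
        linarith
      | (n + 2) =>
        rw [coeff_eq_zero_of_natDegree_lt (by omega), Int.cast_zero, abs_zero]
        positivity
    have h1H : 1 ≤ 10 * Real.exp (2 * T) := by
      have := Real.one_le_exp (show 0 ≤ 2 * T by positivity)
      linarith
    have h7 := hmeas P hP0 hPd _ h1H hH
    have h8 : (10 * Real.exp (2 * T)) ^ κ = (10 : ℝ) ^ κ * Real.exp (2 * T * κ) := by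
      rw [Real.mul_rpow (by norm_num) (Real.exp_nonneg _), ← Real.exp_mul]
    have h9 : c0 ≤ 4 * (10 : ℝ) ^ κ * Real.exp (-(η / 2 * T)) := by
      calc c0 ≤ (10 * Real.exp (2 * T)) ^ κ * |aeval (Real.exp 1) P| := h7
        _ ≤ (10 * Real.exp (2 * T)) ^ κ * (Real.exp (2 * T) * (4 * Real.exp (-(w * T)))) :=
            mul_le_mul_of_nonneg_left hsmall (by positivity)
        _ = 4 * (10 : ℝ) ^ κ *
            (Real.exp (2 * T * κ) * Real.exp (2 * T) * Real.exp (-(w * T))) := by
            rw [h8]; ring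
        _ = 4 * (10 : ℝ) ^ κ * Real.exp (-(η / 2 * T)) := by
            rw [← Real.exp_add, ← Real.exp_add, hκ', hw]
            congr 2
            ring
    exact absurd (hT0 T hTT0) (not_lt.2 h9)
  · push Not at hcase
    have h1 : Real.log (N * Real.log 2) < Real.log (w ^ (j + 1)) :=
      Real.log_lt_log (by positivity) hcase
    rw [Real.log_mul hN0.ne' hlog2.ne', Real.log_pow] at h1
    have h2 : (Real.log N + Real.log (Real.log 2)) / Real.log w < ((j + 1 : ℕ) : ℝ) := by
      rwa [div_lt_iff₀ hlogw]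
    rw [add_div] at h2
    have h3 : ((j : ℕ) : ℝ) ≤ j0 + ((F.card : ℝ) + G.card) := by exact_mod_cast hj2
    push_cast at h2
    linarith

end Pool.Agent.Q163.LE
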