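import Mathlib
import Pool.Agent.Q163.LE.Common
import Pool.Agent.Q163.LE.Scales

set_option autoImplicit false

/-!
# Fields whose elements are simultaneously approximable to any order
-/

namespace Pool.Agent.Q163.LE

open Filter Topology

/-- any finitely many elements of `F` have simultaneous rational approximations of every order -/
def SimLiouville (F : Subfield ℝ) : Prop :=
  ∀ s : Finset ℝ, (∀ x ∈ s, x ∈ F) → ∀ w q0 : ℕ, ∃ q : ℕ, q0 ≤ q ∧ 1 ≤ q ∧
    ∀ x ∈ s, ∃ p : ℤ, |(q : ℝ) * x - p| < 1 / (q : ℝ) ^ w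

lemma sim_of_finite (F : Subfield ℝ)
    (h : ∀ s : Finset ℝ, (∀ x ∈ s, x ∈ F) → ∃ T : ℕ → ℝ, Tendsto T atTop atTop ∧
      ∀ x ∈ s, Ap T x) : SimLiouville F := by
  classical
  intro s hs w q0
  obtain ⟨T, hT, hAp⟩ := h s hs
  obtain ⟨A, hA, hcom⟩ := common (ι := s) hT (fun x => (x : ℝ)) (fun x => hAp x x.2)
  obtain ⟨n, ⟨q, hq1, hq2, p, hp⟩, h1, h2⟩ := ((hcom (A * w + 1)).and ((ev_ge hT (q0 + 1)).and
    (hT.eventually_gt_atTop 0))).exists
  have hqr : (q0 : ℝ) + 1 ≤ q := h1.trans hq1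
  have hq00 : (0 : ℝ) ≤ q0 := Nat.cast_nonneg _
  have hq0 : (0 : ℝ) < q := by linarith
  refine ⟨q, ?_, ?_, fun x hx => ⟨p ⟨x, hx⟩, ?_⟩⟩
  · have : (q0 : ℝ) ≤ q := by linarith
    exact_mod_cast this
  · exact_mod_cast hq0
  · refine lt_of_le_of_lt (hp ⟨x, hx⟩) ?_
    rw [lt_div_iff₀ (by positivity)]
    have h6 : (q : ℝ) ^ w ≤ Real.exp (A * w * T n) := by
      calc (q : ℝ) ^ w ≤ Real.exp (A * T n) ^ w := pow_le_pow_left₀ hq0.le hq2 w
        _ = Real.exp (A * w * T n) := by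
            rw [← Real.exp_nat_mul]
            ring_nf
    calc Real.exp (-((A * w + 1) * T n)) * (q : ℝ) ^ w
        ≤ Real.exp (-((A * w + 1) * T n)) * Real.exp (A * w * T n) :=
          mul_le_mul_of_nonneg_left h6 (Real.exp_nonneg _)
      _ = Real.exp (-(T n)) := by
          rw [← Real.exp_add]
          ring_nf
      _ < 1 := by
          rw [Real.exp_lt_one_iff]
          linarith

/-- the fields of the numbers with very good approximations at given scales -/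
theorem sim_apField (T : ℕ → ℝ) (hT : Tendsto T atTop atTop) : SimLiouville (ApField T hT) :=
  sim_of_finite _ fun _ hs => ⟨T, hT, fun x hx => hs x hx⟩

/-- the fields generated by the numbers with few phrases -/
theorem sim_lz (S : Set ℕ) (hS : S.Infinite) : SimLiouville (Subfield.closure (lz S)) := by
  classical
  refine sim_of_finite _ fun s hs => ?_
  have hex : ∀ x : ℝ, ∃ t : Finset ℝ, x ∈ s → (t : Set ℝ) ⊆ lz S ∧
      x ∈ Subfield.closure (t : Set ℝ) := by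
    intro x
    by_cases hx : x ∈ s
    · obtain ⟨t, h1, h2⟩ := mem_closure_finite (hs x hx)
      exact ⟨t, fun _ => ⟨h1, h2⟩⟩
    · exact ⟨∅, fun h => absurd h hx⟩
  choose t ht using hex
  set U : Finset ℝ := s.biUnion t with hU
  have hUS : ∀ u ∈ U, u ∈ lz S := by
    intro u hu
    obtain ⟨j, hj1, hj⟩ := Finset.mem_biUnion.1 hu
    exact (ht j hj1).1 hj
  choose! b hb hbT using hUS
  obtain ⟨T, hT, hAp⟩ := scales (ι := U) S hS (fun u => b u) (fun u => hb u u.2)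
    (fun u => (u : ℝ)) (fun u => hbT u u.2)
  refine ⟨T, hT, fun x hx => ?_⟩
  have hle : Subfield.closure (U : Set ℝ) ≤ ApField T hT := by
    rw [Subfield.closure_le]
    intro u hu
    exact hAp ⟨u, hu⟩
  refine hle (Subfield.closure_mono ?_ (ht x hx).2)
  intro u hu
  exact Finset.mem_coe.2 (Finset.mem_biUnion.2 ⟨x, hx, hu⟩)

/-- elements of a space spanned by `1` and `v i` over such a field -/
theorem approx_step {F : Subfield ℝ} (hF : SimLiouville F) {ι : Type*} [Fintype ι] {D : ℕ}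
    (v : Fin D → ℝ) (x : ι → ℝ) (r : ι → F) (c : ι → Fin D → F)
    (hx : ∀ j, x j = r j + ∑ i, (c j i : ℝ) * v i) (κ q0 : ℕ) :
    ∃ q : ℕ, q0 ≤ q ∧ 1 ≤ q ∧ ∀ j, ∃ (p0 : ℤ) (p : Fin D → ℤ), (∀ i, |(p i : ℝ)| ≤ (q : ℝ) ^ 2) ∧
      |(q : ℝ) * x j - p0 - ∑ i, (p i : ℝ) * v i| < 1 / (q : ℝ) ^ κ := by
  classical
  set M : ℝ := 1 + ∑ i, |v i| with hM
  have hM1 : 1 ≤ M := by
    have : 0 ≤ ∑ i, |v i| := Finset.sum_nonneg fun _ _ => abs_nonneg _
    linarith
  set N : ℝ := ∑ j, ∑ i, |(c j i : ℝ)| with hN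
  have hN0 : 0 ≤ N := Finset.sum_nonneg fun _ _ => Finset.sum_nonneg fun _ _ => abs_nonneg _
  have hcN : ∀ j i, |(c j i : ℝ)| ≤ N := fun j i =>
    (Finset.single_le_sum (f := fun i => |(c j i : ℝ)|) (fun _ _ => abs_nonneg _)
      (Finset.mem_univ i)).trans
    (Finset.single_le_sum (f := fun j => ∑ i, |(c j i : ℝ)|)
      (fun _ _ => Finset.sum_nonneg fun _ _ => abs_nonneg _) (Finset.mem_univ j))
  set s : Finset ℝ := (Finset.univ.image fun j => (r j : ℝ)) ∪
    (Finset.univ.image fun z : ι × Fin D => (c z.1 z.2 : ℝ)) with hs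
  have hsF : ∀ x ∈ s, x ∈ F := by
    intro x hx
    rcases Finset.mem_union.1 hx with h | h
    · obtain ⟨j, _, rfl⟩ := Finset.mem_image.1 h
      exact (r j).2
    · obtain ⟨z, _, rfl⟩ := Finset.mem_image.1 h
      exact (c z.1 z.2).2
  obtain ⟨q, hq1, hq2, hq3⟩ := hF s hsF (κ + 1) (max q0 ⌈M + N + 1⌉₊)
  have hqq0 : q0 ≤ q := (le_max_left _ _).trans hq1
  have hqM : M + N + 1 ≤ q := (Nat.le_ceil _).trans (by exact_mod_cast (le_max_right _ _).trans hq1)
  have hq1r : (1 : ℝ) ≤ q := by exact_mod_cast hq2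
  have hq0r : (0 : ℝ) < q := by linarith
  have hr' : ∀ j, ∃ p : ℤ, |(q : ℝ) * r j - p| < 1 / (q : ℝ) ^ (κ + 1) := fun j =>
    hq3 _ (Finset.mem_union_left _ (Finset.mem_image_of_mem _ (Finset.mem_univ j)))
  have hc' : ∀ j i, ∃ p : ℤ, |(q : ℝ) * c j i - p| < 1 / (q : ℝ) ^ (κ + 1) := fun j i =>
    hq3 _ (Finset.mem_union_right _
      (Finset.mem_image_of_mem (fun z : ι × Fin D => (c z.1 z.2 : ℝ)) (Finset.mem_univ (j, i))))
  choose P0 hP0 using hr'
  choose P hP using hc'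
  have hle1 : 1 / (q : ℝ) ^ (κ + 1) ≤ 1 := by
    rw [div_le_one (by positivity)]
    exact one_le_pow₀ hq1r
  refine ⟨q, hqq0, hq2, fun j => ⟨P0 j, P j, fun i => ?_, ?_⟩⟩
  · have h6 : |(P j i : ℝ)| ≤ |(q : ℝ) * c j i| + |(q : ℝ) * c j i - P j i| := by
      have h7 := abs_sub ((q : ℝ) * c j i) ((q : ℝ) * c j i - P j i)
      rwa [sub_sub_cancel] at h7
    rw [abs_mul, Nat.abs_cast] at h6
    have h7 := hP j i
    have h8 : |(c j i : ℝ)| + 1 ≤ q := by linarith [hcN j i]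
    calc |(P j i : ℝ)| ≤ (q : ℝ) * |(c j i : ℝ)| + 1 := by linarith
      _ ≤ (q : ℝ) * (|(c j i : ℝ)| + 1) := by nlinarith [abs_nonneg (c j i : ℝ)]
      _ ≤ (q : ℝ) * q := mul_le_mul_of_nonneg_left h8 hq0r.le
      _ = (q : ℝ) ^ 2 := (sq _).symm
  · have e : (q : ℝ) * x j - P0 j - ∑ i, (P j i : ℝ) * v i =
        ((q : ℝ) * r j - P0 j) + ∑ i, ((q : ℝ) * c j i - P j i) * v i := by
      rw [hx]
      simp only [sub_mul, Finset.sum_sub_distrib, mul_add, Finset.mul_sum]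
      have : ∑ i, (q : ℝ) * ((c j i : ℝ) * v i) = ∑ i, (q : ℝ) * c j i * v i :=
        Finset.sum_congr rfl fun i _ => by ring
      rw [this]
      ring
    rw [e]
    have h5 : |((q : ℝ) * r j - P0 j) + ∑ i, ((q : ℝ) * c j i - P j i) * v i| ≤
        1 / (q : ℝ) ^ (κ + 1) * M := by
      refine (abs_add_le _ _).trans ?_
      rw [hM, mul_add, mul_one]
      refine add_le_add (hP0 j).le ((Finset.abs_sum_le_sum_abs _ _).trans ?_)
      rw [Finset.mul_sum]
      refine Finset.sum_le_sum fun i _ => ?_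
      rw [abs_mul]
      exact mul_le_mul_of_nonneg_right (hP j i).le (abs_nonneg _)
    refine lt_of_le_of_lt h5 ?_
    have h6 : M < q := by linarith
    rw [pow_succ, div_mul_eq_mul_div, one_mul, div_lt_div_iff₀ (by positivity) (by positivity),
      one_mul, mul_comm]
    exact mul_lt_mul_of_pos_left h6 (by positivity)

end Pool.Agent.Q163.LE
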