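import Mathlib
import Pool.Agent.Q163.LE.Sim

set_option autoImplicit false

/-!
# Measures over the rational numbers and statements over larger fields
-/

namespace Pool.Agent.Q163.LE

open Filter Topology

/-- a simultaneous measure of irrationality -/
theorem one_outside {F : Subfield ℝ} (hF : SimLiouville F) (J : Finset ℕ) (f : ℕ → ℝ) (κ : ℕ)
    (c : ℝ) (hc : 0 < c)
    (h : ∀ (p : ℕ → ℤ) (q : ℕ), 0 < q → ∃ j ∈ J, c / (q : ℝ) ^ κ ≤ |f j - (p j : ℝ) / q|) :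
    ∃ j ∈ J, f j ∉ F := by
  classical
  by_contra hcon
  push Not at hcon
  obtain ⟨q, hq1, hq2, hq3⟩ := hF (J.image f) (by
    intro x hx
    obtain ⟨j, hj, rfl⟩ := Finset.mem_image.1 hx
    exact hcon j hj) κ (⌈1 / c⌉₊ + 1)
  have hq0 : (0 : ℝ) < q := by exact_mod_cast hq2
  have hqc : 1 / c < q := by
    refine lt_of_le_of_lt (Nat.le_ceil _) ?_
    exact_mod_cast (by omega : ⌈1 / c⌉₊ < q)
  have hex : ∀ j : ℕ, ∃ p : ℤ, j ∈ J → |(q : ℝ) * f j - p| < 1 / (q : ℝ) ^ κ := by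
    intro j
    by_cases hj : j ∈ J
    · obtain ⟨p, hp⟩ := hq3 (f j) (Finset.mem_image_of_mem _ hj)
      exact ⟨p, fun _ => hp⟩
    · exact ⟨0, fun h => absurd h hj⟩
  choose p hp using hex
  obtain ⟨j, hj, hle⟩ := h p q (by omega)
  have h1 := hp j hj
  have e : (q : ℝ) * f j - p j = q * (f j - (p j : ℝ) / q) := by field_simp
  rw [e, abs_mul, Nat.abs_cast] at h1
  have h2 : (q : ℝ) * (c / (q : ℝ) ^ κ) < 1 / (q : ℝ) ^ κ :=
    lt_of_le_of_lt (mul_le_mul_of_nonneg_left hle hq0.le) h1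
  rw [← mul_div_assoc, div_lt_div_iff_of_pos_right (by positivity)] at h2
  rw [div_lt_iff₀ hc] at hqc
  linarith

/-- points near rational planes -/
theorem plane {F : Subfield ℝ} (hF : SimLiouville F) (J : Finset ℕ) (f : ℕ → ℝ) (κ : ℕ) (c : ℝ)
    (hc : 0 < c) (h : ∀ (q : ℕ) (a b : ℕ → ℤ) (θ H : ℝ), 0 < q → (q : ℝ) ≤ H →
      (∀ i ∈ J, |(b i : ℝ)| ≤ H) → ∃ i ∈ J,
        c / H ^ κ ≤ |f i - ((a i : ℝ) + θ * (b i : ℝ)) / q|)
    (W : Submodule F ℝ) [FiniteDimensional F W] (h1 : (1 : ℝ) ∈ W) (hW : ∀ i ∈ J, f i ∈ W) :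
    3 ≤ Module.finrank F W := by
  classical
  by_contra hcon
  obtain ⟨v, hv⟩ := exists_span F W h1 1 (by omega)
  choose! r cc hrc using hv
  obtain ⟨q, hq1, hq2, hq3⟩ := approx_step (ι := J) hF v (fun j => f j) (fun j => r (f j))
    (fun j => cc (f j)) (fun j => hrc _ (hW j j.2)) (2 * κ) (⌈1 / c⌉₊ + 1)
  have hq0 : (0 : ℝ) < q := by exact_mod_cast hq2
  have hq1r : (1 : ℝ) ≤ q := by exact_mod_cast hq2
  have hqc : 1 / c < q := by
    refine lt_of_le_of_lt (Nat.le_ceil _) ?_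
    exact_mod_cast (by omega : ⌈1 / c⌉₊ < q)
  have hex : ∀ j : ℕ, ∃ a b : ℤ, j ∈ J → |(b : ℝ)| ≤ (q : ℝ) ^ 2 ∧
      |(q : ℝ) * f j - a - b * v 0| < 1 / (q : ℝ) ^ (2 * κ) := by
    intro j
    by_cases hj : j ∈ J
    · obtain ⟨p0, p, hp1, hp2⟩ := hq3 ⟨j, hj⟩
      refine ⟨p0, p 0, fun _ => ⟨hp1 0, ?_⟩⟩
      rwa [Fin.sum_univ_one] at hp2
    · exact ⟨0, 0, fun h => absurd h hj⟩
  choose a b hab using hex
  obtain ⟨i, hi, hle⟩ := h q a b (v 0) ((q : ℝ) ^ 2) (by omega) (by nlinarith)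
    (fun i hi => (hab i hi).1)
  have h2 := (hab i hi).2
  have e : (q : ℝ) * f i - a i - b i * v 0 = q * (f i - ((a i : ℝ) + v 0 * (b i : ℝ)) / q) := by
    field_simp
    ring
  rw [e, abs_mul, Nat.abs_cast, pow_mul] at h2
  have h3 : (q : ℝ) * (c / ((q : ℝ) ^ 2) ^ κ) < 1 / ((q : ℝ) ^ 2) ^ κ :=
    lt_of_le_of_lt (mul_le_mul_of_nonneg_left hle hq0.le) h2
  rw [← mul_div_assoc, div_lt_div_iff_of_pos_right (by positivity)] at h3
  rw [div_lt_iff₀ hc] at hqc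
  linarith

/-- points near rational spaces of dimension three -/
theorem space {F : Subfield ℝ} (hF : SimLiouville F) (J : Finset ℕ) (f : ℕ → ℝ) (κ : ℕ) (c : ℝ)
    (hc : 0 < c) (h : ∀ (q : ℕ) (a b d : ℕ → ℤ) (θ₁ θ₂ H : ℝ), 0 < q → (q : ℝ) ≤ H →
      (∀ i ∈ J, |(b i : ℝ)| ≤ H) → (∀ i ∈ J, |(d i : ℝ)| ≤ H) → ∃ i ∈ J,
        c / H ^ κ ≤ |f i - ((a i : ℝ) + θ₁ * (b i : ℝ) + θ₂ * (d i : ℝ)) / q|)
    (W : Submodule F ℝ) [FiniteDimensional F W] (h1 : (1 : ℝ) ∈ W) (hW : ∀ i ∈ J, f i ∈ W) :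
    4 ≤ Module.finrank F W := by
  classical
  by_contra hcon
  obtain ⟨v, hv⟩ := exists_span F W h1 2 (by omega)
  choose! r cc hrc using hv
  obtain ⟨q, hq1, hq2, hq3⟩ := approx_step (ι := J) hF v (fun j => f j) (fun j => r (f j))
    (fun j => cc (f j)) (fun j => hrc _ (hW j j.2)) (2 * κ) (⌈1 / c⌉₊ + 1)
  have hq0 : (0 : ℝ) < q := by exact_mod_cast hq2
  have hq1r : (1 : ℝ) ≤ q := by exact_mod_cast hq2
  have hqc : 1 / c < q := by
    refine lt_of_le_of_lt (Nat.le_ceil _) ?_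
    exact_mod_cast (by omega : ⌈1 / c⌉₊ < q)
  have hex : ∀ j : ℕ, ∃ a b d : ℤ, j ∈ J → |(b : ℝ)| ≤ (q : ℝ) ^ 2 ∧ |(d : ℝ)| ≤ (q : ℝ) ^ 2 ∧
      |(q : ℝ) * f j - a - (b * v 0 + d * v 1)| < 1 / (q : ℝ) ^ (2 * κ) := by
    intro j
    by_cases hj : j ∈ J
    · obtain ⟨p0, p, hp1, hp2⟩ := hq3 ⟨j, hj⟩
      refine ⟨p0, p 0, p 1, fun _ => ⟨hp1 0, hp1 1, ?_⟩⟩
      rwa [Fin.sum_univ_two] at hp2
    · exact ⟨0, 0, 0, fun h => absurd h hj⟩
  choose a b d hab using hex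
  obtain ⟨i, hi, hle⟩ := h q a b d (v 0) (v 1) ((q : ℝ) ^ 2) (by omega) (by nlinarith)
    (fun i hi => (hab i hi).1) (fun i hi => (hab i hi).2.1)
  have h2 := (hab i hi).2.2
  have e : (q : ℝ) * f i - a i - (b i * v 0 + d i * v 1) =
      q * (f i - ((a i : ℝ) + v 0 * (b i : ℝ) + v 1 * (d i : ℝ)) / q) := by
    field_simp
    ring
  rw [e, abs_mul, Nat.abs_cast, pow_mul] at h2
  have h3 : (q : ℝ) * (c / ((q : ℝ) ^ 2) ^ κ) < 1 / ((q : ℝ) ^ 2) ^ κ :=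
    lt_of_le_of_lt (mul_le_mul_of_nonneg_left hle hq0.le) h2
  rw [← mul_div_assoc, div_lt_div_iff_of_pos_right (by positivity)] at h3
  rw [div_lt_iff₀ hc] at hqc
  linarith

/-- measures of linear independence -/
theorem lin_indep {F : Subfield ℝ} (hF : SimLiouville F) {m : ℕ} (x : Fin m → ℝ) (κ : ℕ) (c : ℝ)
    (hc : 0 < c) (h : ∀ (z : Fin m → ℤ) (H : ℝ), z ≠ 0 → 1 ≤ H → (∀ i, |(z i : ℝ)| ≤ H) →
      c / H ^ κ ≤ |∑ i, (z i : ℝ) * x i|) : LinearIndependent F x := by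
  classical
  rw [Fintype.linearIndependent_iff]
  intro g hg
  by_contra hcon
  push Not at hcon
  obtain ⟨i0, hi0⟩ := hcon
  have hg0 : (0 : ℝ) < |(g i0 : ℝ)| := abs_pos.2 (fun h => hi0 (Subtype.ext h))
  set M : ℝ := ∑ i, |x i| with hM
  have hM0 : 0 ≤ M := Finset.sum_nonneg fun _ _ => abs_nonneg _
  set N : ℝ := ∑ i, |(g i : ℝ)| with hN
  have hgN : ∀ i, |(g i : ℝ)| ≤ N := fun i =>
    Finset.single_le_sum (f := fun i => |(g i : ℝ)|) (fun _ _ => abs_nonneg _) (Finset.mem_univ i)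
  have hN0 : 0 ≤ N := (abs_nonneg _).trans (hgN i0)
  obtain ⟨q, hq1, hq2, hq3⟩ := hF (Finset.univ.image fun i => (g i : ℝ)) (by
    intro y hy
    obtain ⟨j, _, rfl⟩ := Finset.mem_image.1 hy
    exact (g j).2) (2 * κ + 1) (⌈M / c + 1 / |(g i0 : ℝ)| + N + 2⌉₊ + 1)
  have hqb : M / c + 1 / |(g i0 : ℝ)| + N + 2 < q := by
    refine lt_of_le_of_lt (Nat.le_ceil _) ?_
    exact_mod_cast (by omega : ⌈M / c + 1 / |(g i0 : ℝ)| + N + 2⌉₊ < q)
  have hMc : 0 ≤ M / c := by positivity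
  have hgi : 0 < 1 / |(g i0 : ℝ)| := by positivity
  have hq1r : (1 : ℝ) ≤ q := by exact_mod_cast hq2
  have hq0 : (0 : ℝ) < q := by linarith
  have hq4 : ∀ i, ∃ p : ℤ, |(q : ℝ) * g i - p| < 1 / (q : ℝ) ^ (2 * κ + 1) := fun i =>
    hq3 _ (Finset.mem_image_of_mem _ (Finset.mem_univ i))
  choose p hp using hq4
  have hsm : 1 / (q : ℝ) ^ (2 * κ + 1) ≤ 1 := by
    rw [div_le_one (by positivity)]
    exact one_le_pow₀ hq1r
  have hp0 : p ≠ 0 := by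
    intro h0
    have h1 := hp i0
    rw [h0] at h1
    simp only [Pi.zero_apply, Int.cast_zero, sub_zero, abs_mul, Nat.abs_cast] at h1
    have h2 : 1 < (q : ℝ) * |(g i0 : ℝ)| := by
      have h3 : 1 / |(g i0 : ℝ)| < q := by linarith
      rwa [div_lt_iff₀ hg0] at h3
    linarith
  have hpb : ∀ i, |(p i : ℝ)| ≤ (q : ℝ) ^ 2 := by
    intro i
    have h6 : |(p i : ℝ)| ≤ |(q : ℝ) * g i| + |(q : ℝ) * g i - p i| := by
      have h7 := abs_sub ((q : ℝ) * g i) ((q : ℝ) * g i - p i)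
      rwa [sub_sub_cancel] at h7
    rw [abs_mul, Nat.abs_cast] at h6
    have h7 := hp i
    have h8 : |(g i : ℝ)| + 1 ≤ q := by linarith [hgN i]
    calc |(p i : ℝ)| ≤ (q : ℝ) * |(g i : ℝ)| + 1 := by linarith
      _ ≤ (q : ℝ) * (|(g i : ℝ)| + 1) := by nlinarith [abs_nonneg (g i : ℝ)]
      _ ≤ (q : ℝ) * q := mul_le_mul_of_nonneg_left h8 hq0.le
      _ = (q : ℝ) ^ 2 := (sq _).symm
  have hmain := h p ((q : ℝ) ^ 2) hp0 (one_le_pow₀ hq1r) hpb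
  have hg' : ∑ i, (g i : ℝ) * x i = 0 := by
    rw [← hg]
    exact Finset.sum_congr rfl fun i _ => by rw [Subfield.smul_def, smul_eq_mul]
  have e : ∑ i, (p i : ℝ) * x i = - ∑ i, ((q : ℝ) * g i - p i) * x i := by
    simp only [sub_mul, Finset.sum_sub_distrib]
    have : ∑ i, (q : ℝ) * (g i : ℝ) * x i = q * ∑ i, (g i : ℝ) * x i := by
      rw [Finset.mul_sum]
      exact Finset.sum_congr rfl fun i _ => by ring
    rw [this, hg']
    ring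
  rw [e, abs_neg] at hmain
  have h9 : |∑ i, ((q : ℝ) * g i - p i) * x i| ≤ 1 / (q : ℝ) ^ (2 * κ + 1) * M := by
    refine (Finset.abs_sum_le_sum_abs _ _).trans ?_
    rw [hM, Finset.mul_sum]
    refine Finset.sum_le_sum fun i _ => ?_
    rw [abs_mul]
    exact mul_le_mul_of_nonneg_right (hp i).le (abs_nonneg _)
  have h10 := hmain.trans h9
  rw [← pow_mul, pow_succ, div_mul_eq_mul_div, one_mul, div_le_div_iff₀ (by positivity)
    (by positivity)] at h10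
  have h11 : M < c * q := by
    have : M / c < q := by linarith
    rwa [div_lt_iff₀ hc, mul_comm] at this
  have h12 : (0 : ℝ) < (q : ℝ) ^ (2 * κ) := by positivity
  nlinarith

end Pool.Agent.Q163.LE
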