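import Pool.Agent.Q163.LE.Meas
import Pool.Agent.TH456.TM.E

/-!
# Transcendence over simultaneously Liouville fields
-/

set_option autoImplicit false

namespace Pool.Agent.Q163.LE

open Polynomial Pool.Agent.TH456.TM

/-- a number with transcendence measures of polynomial type is transcendental over every
simultaneously Liouville field -/
theorem transc_of_measT {F : Subfield ℝ} (hF : SimLiouville F) (θ : ℝ) (hθ : MeasT (θ : ℂ)) :
    Transcendental F θ := by
  classical
  rintro ⟨P, hP0, hP⟩
  set D := P.natDegree with hD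
  obtain ⟨κ, c, hκ, hc, h⟩ := hθ D
  have hlin : LinearIndependent F (fun i : Fin (D + 1) => θ ^ (i : ℕ)) := by
    refine lin_indep hF _ ⌈κ⌉₊ c hc fun z H hz hH hzH => ?_
    set Q : ℤ[X] := ∑ i : Fin (D + 1), C (z i) * X ^ (i : ℕ) with hQ
    have hcoef : ∀ j : ℕ, Q.coeff j = if hj : j < D + 1 then z ⟨j, hj⟩ else 0 := by
      intro j
      rw [hQ, Polynomial.finset_sum_coeff]
      split_ifs with hj
      · rw [Finset.sum_eq_single (⟨j, hj⟩ : Fin (D + 1))]
        · simp
        · intro i _ hi
          rw [Polynomial.coeff_C_mul, Polynomial.coeff_X_pow, if_neg, mul_zero]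
          intro h0
          exact hi (Fin.ext h0.symm)
        · intro h0
          exact absurd (Finset.mem_univ _) h0
      · refine Finset.sum_eq_zero fun i _ => ?_
        rw [Polynomial.coeff_C_mul, Polynomial.coeff_X_pow, if_neg, mul_zero]
        have := i.2
        omega
    have hQ0 : Q ≠ 0 := by
      intro h0
      apply hz
      funext i
      have h1 := hcoef i
      rw [h0, Polynomial.coeff_zero, dif_pos i.2] at h1
      exact h1.symm
    have hdeg : Q.natDegree ≤ D := by
      rw [Polynomial.natDegree_le_iff_coeff_eq_zero]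
      intro j hj
      rw [hcoef, dif_neg (by omega)]
    have hmain := h Q hQ0 hdeg H hH (fun j => by
      rw [hcoef]
      split_ifs with hj
      · exact hzH _
      · rw [Int.cast_zero, abs_zero]; linarith)
    have e1 : (aeval (θ : ℂ)) Q = ((∑ i : Fin (D + 1), (z i : ℝ) * θ ^ (i : ℕ) : ℝ) : ℂ) := by
      rw [hQ, map_sum]
      push_cast
      refine Finset.sum_congr rfl fun i _ => ?_
      simp
    rw [e1, Complex.norm_real, Real.norm_eq_abs] at hmain
    have hH0 : (0 : ℝ) < H := by linarith
    have h2 : H ^ κ ≤ H ^ ⌈κ⌉₊ := by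
      rw [← Real.rpow_natCast]
      exact Real.rpow_le_rpow_of_exponent_le hH (Nat.le_ceil κ)
    rw [div_le_iff₀ (by positivity), mul_comm]
    exact hmain.trans (mul_le_mul_of_nonneg_right h2 (abs_nonneg _))
  rw [Fintype.linearIndependent_iff] at hlin
  apply hP0
  have hall := hlin (fun i => P.coeff i) (by
    rw [Polynomial.aeval_eq_sum_range] at hP
    rw [← hP, Finset.sum_range]
    )
  ext j
  by_cases hj : j < D + 1
  · rw [hall ⟨j, hj⟩, Polynomial.coeff_zero]
  · rw [Polynomial.coeff_zero]
    rw [Polynomial.coeff_eq_zero_of_natDegree_lt (by omega)]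

end Pool.Agent.Q163.LE
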