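import Mathlib
import Pool.Agent.Q163.LE.Sim
import Pool.Agent.Y926.TW.Dist

set_option autoImplicit false

/-!
# Odd zeta values outside vector spaces over fields of well approximable numbers
-/

namespace Pool.Agent.Q163.LE

open Filter Topology

/-- many odd zeta values outside spaces of small dimension over the fields -/
theorem zeta_outside {F : Subfield ℝ} (hF : SimLiouville F) {b K s D : ℕ} (hK : 1 ≤ K)
    (hs : (2 : ℝ) ^ (132 * (D + 1)) * ((b : ℝ) + 1) ^ 2 * (K : ℝ) ^ 3 * Real.log (K + 1) ≤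
      (s : ℝ) ^ 2) (V : Submodule F ℝ) (hV : FiniteDimensional F V)
    (hVD : Module.finrank F V ≤ D) :
    K ≤ Set.ncard {j : ℕ | b < j ∧ j ≤ s ∧ Odd j ∧
      ∀ r : F, (∑' n : ℕ, 1 / ((n : ℝ) + 1) ^ j) - r ∉ V} := by
  classical
  have h1ne : (1 : ℝ) ≠ 0 := one_ne_zero
  set W : Submodule F ℝ := Submodule.span F {(1 : ℝ)} ⊔ V with hW
  have h1W : (1 : ℝ) ∈ W := Submodule.mem_sup_left (Submodule.mem_span_singleton_self _)
  have hfin : Module.finrank F W ≤ D + 1 := by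
    have h2 := Submodule.finrank_add_le_finrank_add_finrank (Submodule.span F {(1 : ℝ)}) V
    have h3 : Module.finrank F (Submodule.span F {(1 : ℝ)}) = 1 := finrank_span_singleton h1ne
    rw [← hW] at h2
    omega
  obtain ⟨v, hv⟩ := exists_span F W h1W D hfin
  set Bd : Finset ℕ := (Finset.Icc (b + 1) s).filter fun j => Odd j ∧
    ∃ r : F, (∑' n : ℕ, 1 / ((n : ℝ) + 1) ^ j) - r ∈ V with hBd
  have hrep : ∀ j ∈ Bd, ∃ (r : F) (c : Fin D → F),
      (∑' n : ℕ, 1 / ((n : ℝ) + 1) ^ j) = r + ∑ i, (c i : ℝ) * v i := by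
    intro j hj
    obtain ⟨_, _, r, hr⟩ := Finset.mem_filter.1 hj
    refine hv _ ?_
    have h2 : (∑' n : ℕ, 1 / ((n : ℝ) + 1) ^ j) =
        (r : ℝ) + ((∑' n : ℕ, 1 / ((n : ℝ) + 1) ^ j) - r) := by ring
    rw [h2]
    refine Submodule.add_mem _ (Submodule.mem_sup_left ?_) (Submodule.mem_sup_right hr)
    rw [Submodule.mem_span_singleton]
    exact ⟨r, by rw [Subfield.smul_def, smul_eq_mul, mul_one]⟩
  choose! r c hrc using hrep
  obtain ⟨q0, hq0⟩ := Pool.Agent.Y926.TW.window_dist (b := b) (K := K) (D := D) (s := s) hK hs v 2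
  obtain ⟨q, hq1, hq2, hq3⟩ := approx_step (ι := Bd) hF v
    (fun j => ∑' n : ℕ, 1 / ((n : ℝ) + 1) ^ (j : ℕ)) (fun j => r j) (fun j => c j)
    (fun j => hrc j j.2) (D * (D + 2) * 2 + 2 * D + 2) q0
  refine (hq0 q hq1).trans (Set.ncard_le_ncard ?_ ?_)
  · rintro j ⟨h2, h3, h4, h5⟩
    refine ⟨h2, h3, h4, fun ρ hρ => ?_⟩
    have hjB : j ∈ Bd := by
      rw [hBd, Finset.mem_filter, Finset.mem_Icc]
      exact ⟨⟨h2, h3⟩, h4, ρ, hρ⟩
    obtain ⟨p0, p, hp1, hp2⟩ := hq3 ⟨j, hjB⟩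
    exact absurd (h5 p0 p hp1) (not_le.2 hp2)
  · exact (Set.finite_Icc 0 s).subset fun j hj => ⟨Nat.zero_le _, hj.2.1⟩

end Pool.Agent.Q163.LE
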